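import Pool.Agent.V8H79.BM.PA

/-!
# Leading entries of the vectors of a subspace, products of two spaces
-/

set_option autoImplicit false

open Polynomial

open scoped Pointwise

namespace Pool.Agent.V8H79.KS

open Pool.Agent.V8H79.BM

section pivots

variable {K : Type*} [Field K] {ι : Type*} [Fintype ι]

/-- positions of the leading entries of the vectors of a subspace -/
def piv (f : ι → ℕ) (V : Submodule K (ι → K)) : Set ι :=
  {i | ∃ v ∈ V, v i ≠ 0 ∧ ∀ j, f j < f i → v j = 0}

theorem finrank_le_piv (f : ι → ℕ) (V : Submodule K (ι → K)) :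
    Module.finrank K V ≤ (piv f V).ncard := by
  classical
  let φ : V →ₗ[K] (piv f V → K) :=
    { toFun := fun v i => (v : ι → K) i
      map_add' := fun _ _ => rfl
      map_smul' := fun _ _ => rfl }
  have hinj : Function.Injective φ := by
    rw [injective_iff_map_eq_zero]
    intro v hv
    by_contra hne
    have hne' : ∃ i, (v : ι → K) i ≠ 0 := by
      by_contra hcon
      push Not at hcon
      exact hne (Subtype.ext (funext hcon))
    have hS : (Finset.univ.filter fun i => (v : ι → K) i ≠ 0).Nonempty := by
      obtain ⟨i, hi⟩ := hne'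
      exact ⟨i, by simpa using hi⟩
    obtain ⟨i, hi, hmin⟩ := Finset.exists_min_image _ f hS
    have hi0 : (v : ι → K) i ≠ 0 := (Finset.mem_filter.1 hi).2
    have hp : i ∈ piv f V := by
      refine ⟨v, v.2, hi0, fun j hj => ?_⟩
      by_contra hj0
      have := hmin j (Finset.mem_filter.2 ⟨Finset.mem_univ _, hj0⟩)
      omega
    exact hi0 (congrFun hv ⟨i, hp⟩)
  have h1 := LinearMap.finrank_le_finrank_of_injective hinj
  rw [Module.finrank_fintype_fun_eq_card] at h1
  rwa [Set.ncard_eq_toFinset_card', Set.toFinset_card]

theorem piv_le_finrank (f : ι → ℕ) (hf : Function.Injective f) (V : Submodule K (ι → K)) :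
    (piv f V).ncard ≤ Module.finrank K V := by
  classical
  have hex : ∀ i : piv f V, ∃ v : V, (v : ι → K) i ≠ 0 ∧ ∀ j, f j < f i → (v : ι → K) j = 0 := by
    rintro ⟨i, v, hv, h1, h2⟩
    exact ⟨⟨v, hv⟩, h1, h2⟩
  choose v hv1 hv2 using hex
  have hli : LinearIndependent K v := by
    rw [Fintype.linearIndependent_iff]
    intro c hc
    have key : ∀ N : ℕ, ∀ i : piv f V, f i = N → c i = 0 := by
      intro N
      induction N using Nat.strong_induction_on with
      | _ N ih =>
        intro i hi
        have h1 := congrArg (fun w : V => (w : ι → K) i) hc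
        simp only [Submodule.coe_sum, Submodule.coe_smul, Finset.sum_apply, Pi.smul_apply,
          smul_eq_mul, Submodule.coe_zero, Pi.zero_apply] at h1
        rw [Finset.sum_eq_single i] at h1
        · exact (mul_eq_zero.1 h1).resolve_right (hv1 i)
        · intro j _ hj
          rcases lt_trichotomy (f j) (f i) with h | h | h
          · rw [ih (f j) (hi ▸ h) j rfl, zero_mul]
          · exact absurd (Subtype.ext (hf h)) hj
          · rw [hv2 j i h, mul_zero]
        · intro h
          exact absurd (Finset.mem_univ _) h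
    exact fun i => key _ i rfl
  have h1 := hli.fintype_card_le_finrank
  rwa [Set.ncard_eq_toFinset_card', Set.toFinset_card]

end pivots

section orth

variable {K : Type*} [Field K]

/-- the vectors orthogonal to a family -/
def orth {κ : Type*} {N : ℕ} (e : κ → Fin N → K) : Submodule K (Fin N → K) where
  carrier := {v | ∀ x, ∑ l, v l * e x l = 0}
  zero_mem' := by
    intro x
    simp
  add_mem' {v w} hv hw := by
    intro x
    simp only [Pi.add_apply, add_mul, Finset.sum_add_distrib]
    rw [hv x, hw x, add_zero]
  smul_mem' c v hv := by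
    intro x
    simp only [Pi.smul_apply, smul_eq_mul, mul_assoc]
    rw [← Finset.mul_sum, hv x, mul_zero]

theorem finrank_orth {κ : Type*} [Fintype κ] {N : ℕ} (e : κ → Fin N → K)
    (he : LinearIndependent K e) :
    Module.finrank K (orth e) + Fintype.card κ = N := by
  classical
  have h1 : (Matrix.of e).rank = Fintype.card κ := LinearIndependent.rank_matrix he
  have h2 : orth e = LinearMap.ker (Matrix.of e).mulVecLin := by
    ext v
    rw [LinearMap.mem_ker, funext_iff]
    refine forall_congr' fun x => ?_
    have : (∑ l, v l * e x l) = (Matrix.of e).mulVecLin v x := by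
      simp only [Matrix.mulVecLin_apply, Matrix.mulVec, dotProduct, Matrix.of_apply]
      exact Finset.sum_congr rfl fun l _ => mul_comm _ _
    rw [this]
    rfl
  have h3 := LinearMap.finrank_range_add_finrank_ker (Matrix.of e).mulVecLin
  rw [← h2, Module.finrank_fintype_fun_eq_card, Fintype.card_fin] at h3
  change (Matrix.of e).rank + _ = _ at h3
  omega

end orth

section core

variable {K : Type*} [Field K] {n : ℕ}

/-- the moments of a vector -/
noncomputable def mom (s : Fin (n + 1) → K) :
    (Fin (n + 1) → K) →ₗ[K] (Fin (n + 1) → K) where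
  toFun v q := ∑ l, v l * s l ^ (q : ℕ)
  map_add' v w := by
    funext q
    simp only [Pi.add_apply, add_mul, Finset.sum_add_distrib]
  map_smul' c v := by
    funext q
    simp only [Pi.smul_apply, smul_eq_mul, RingHom.id_apply, Finset.mul_sum, mul_assoc]

theorem mom_inj (s : Fin (n + 1) → K) (hs : Function.Injective s) :
    Function.Injective (mom s) := by
  classical
  rw [injective_iff_map_eq_zero]
  intro v hv
  have h1 : (Matrix.vandermonde s).det ≠ 0 := Matrix.det_vandermonde_ne_zero_iff.2 hs
  have h2 : Matrix.vecMul v (Matrix.vandermonde s) = 0 := by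
    funext q
    have := congrFun hv q
    simpa [mom, Matrix.vecMul, dotProduct, Matrix.vandermonde] using this
  exact Matrix.eq_zero_of_vecMul_eq_zero h1 h2

theorem eval_pol (a : Fin n → K) (x : K) : (pol a).eval x = ∑ i, a i * x ^ (i : ℕ) := by
  simp [pol, eval_finsetSum]

/-- **Products.** `N` a space of polynomials of degree `< r`, `TT` a space of vectors whose
moments of order `≤ r` vanish; if the products are orthogonal to the vectors `d i`, which are
independent together with `1` and `s`, then `dim N + dim TT + #d ≤ n`. -/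
theorem core {κ : Type*} [Fintype κ] (r : ℕ) (s : Fin (n + 1) → K) (hs : Function.Injective s)
    (N : Submodule K (Fin n → K)) (hN : ∀ a ∈ N, ∀ i : Fin n, r ≤ (i : ℕ) → a i = 0)
    (TT : Submodule K (Fin (n + 1) → K))
    (hT : ∀ v ∈ TT, ∀ q, q ≤ r → ∑ l, v l * s l ^ q = 0)
    (hposN : 0 < Module.finrank K N) (hposT : 0 < Module.finrank K TT) (d : κ → Fin (n + 1) → K)
    (hd : LinearIndependent K (Sum.elim d ![fun _ => 1, s]))
    (horth : ∀ v ∈ TT, ∀ a ∈ N, ∀ i, ∑ l, v l * (pol a).eval (s l) * d i l = 0) :
    Module.finrank K N + Module.finrank K TT + Fintype.card κ ≤ n := by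
  classical
  have hV := finrank_orth _ hd
  rw [Fintype.card_sum, Fintype.card_fin] at hV
  set V := orth (Sum.elim d ![fun _ => 1, s]) with hVdef
  set V' := V.map (mom s) with hV'
  have hV'f : Module.finrank K V' = Module.finrank K V :=
    (Submodule.equivMapOfInjective (mom s) (mom_inj s hs) V).finrank_eq.symm
  set f : Fin n → ℕ := fun i => n - (i : ℕ) with hf
  have hI := finrank_le_piv f N
  have hJ := finrank_le_piv (fun i : Fin (n + 1) => (i : ℕ)) (TT.map (mom s))
  have hTf : Module.finrank K (TT.map (mom s)) = Module.finrank K TT :=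
    (Submodule.equivMapOfInjective (mom s) (mom_inj s hs) TT).finrank_eq.symm
  have hP := piv_le_finrank (fun i : Fin (n + 1) => (i : ℕ)) Fin.val_injective V'
  rw [Set.ncard_eq_toFinset_card'] at hI hJ hP
  set I := (piv f N).toFinset with hIdef
  set J := (piv (fun i : Fin (n + 1) => (i : ℕ)) (TT.map (mom s))).toFinset with hJdef
  set P := (piv (fun i : Fin (n + 1) => (i : ℕ)) V').toFinset with hPdef
  have hI' : (I.image f).card = I.card := Finset.card_image_of_injective _ fun i j h => by
    have h1 : n - (i : ℕ) = n - (j : ℕ) := h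
    have := i.2
    have := j.2
    exact Fin.ext (by omega)
  have hJ' : (J.image fun i : Fin (n + 1) => (i : ℕ)).card = J.card :=
    Finset.card_image_of_injective _ Fin.val_injective
  have hP' : (P.image fun i : Fin (n + 1) => (i : ℕ)).card = P.card :=
    Finset.card_image_of_injective _ Fin.val_injective
  have hIne : (I.image f).Nonempty := by
    rw [← Finset.card_pos]
    omega
  have hJne : (J.image fun i : Fin (n + 1) => (i : ℕ)).Nonempty := by
    rw [← Finset.card_pos]
    omega
  have hCD := cauchy_davenport_add_of_linearOrder_isCancelAdd hIne hJne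
  -- the main point
  have hmain : ∀ i ∈ I, ∀ q ∈ J, ∃ x ∈ P, (x : ℕ) + (i : ℕ) = (q : ℕ) := by
    intro i hi q hq
    obtain ⟨a, ha, hai, haj⟩ := Set.mem_toFinset.1 hi
    obtain ⟨u, hu, hui, huj⟩ := Set.mem_toFinset.1 hq
    obtain ⟨v, hv, rfl⟩ := (Submodule.mem_map).1 hu
    have hi2 := i.2
    have hq2 := q.2
    have hir : (i : ℕ) < r := by
      by_contra hcon
      exact hai (hN a ha i (by omega))
    have hqr : r < (q : ℕ) := by
      by_contra hcon
      exact hui (hT v hv q (by omega))
    have haj' : ∀ j : Fin n, (i : ℕ) < j → a j = 0 := by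
      intro j hj
      refine haj j ?_
      have := j.2
      change n - (j : ℕ) < n - (i : ℕ)
      omega
    have hmv : ∀ x : ℕ, x < q → ∑ l, v l * s l ^ x = 0 := by
      intro x hx
      exact huj ⟨x, by omega⟩ hx
    set w : Fin (n + 1) → K := fun l => v l * (pol a).eval (s l) with hw
    -- moments of `w`
    have hmw : ∀ x : ℕ, ∑ l, w l * s l ^ x = ∑ j, a j * ∑ l, v l * s l ^ ((j : ℕ) + x) := by
      intro x
      simp only [hw, eval_pol, Finset.mul_sum, Finset.sum_mul]
      rw [Finset.sum_comm]
      refine Finset.sum_congr rfl fun j _ => Finset.sum_congr rfl fun l _ => ?_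
      rw [pow_add]
      ring
    have hmw0 : ∀ x : ℕ, x + i < q → ∑ l, w l * s l ^ x = 0 := by
      intro x hx
      rw [hmw]
      refine Finset.sum_eq_zero fun j _ => ?_
      rcases le_or_gt (j : ℕ) (i : ℕ) with h | h
      · rw [hmv _ (by omega), mul_zero]
      · rw [haj' j h, zero_mul]
    have hmw1 : ∑ l, w l * s l ^ ((q : ℕ) - i) ≠ 0 := by
      rw [hmw, Finset.sum_eq_single i]
      · refine mul_ne_zero hai ?_
        rw [show (i : ℕ) + ((q : ℕ) - i) = q by omega]
        exact hui
      · intro j _ hj
        rcases lt_or_ge (j : ℕ) (i : ℕ) with h | h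
        · rw [hmv _ (by omega), mul_zero]
        · rw [haj' j (lt_of_le_of_ne h fun h' => hj (Fin.ext h'.symm)), zero_mul]
      · intro h
        exact absurd (Finset.mem_univ _) h
    have hwV : w ∈ V := by
      rintro (x | x)
      · exact horth v hv a ha x
      · fin_cases x
        · have := hmw0 0 (by omega)
          simpa using this
        · have := hmw0 1 (by omega)
          simpa using this
    refine ⟨⟨(q : ℕ) - i, by omega⟩, ?_, ?_⟩
    · rw [hPdef, Set.mem_toFinset]
      refine ⟨mom s w, Submodule.mem_map_of_mem hwV, hmw1, fun x hx => ?_⟩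
      have hx' : (x : ℕ) < (q : ℕ) - i := hx
      exact hmw0 x (by omega)
    · change (q : ℕ) - i + i = q
      omega
  -- counting
  have hsub : (I.image f + J.image fun i : Fin (n + 1) => (i : ℕ)) ⊆
      (P.image fun i : Fin (n + 1) => (i : ℕ)).image (· + n) := by
    intro y hy
    obtain ⟨y1, hy1, y2, hy2, rfl⟩ := Finset.mem_add.1 hy
    obtain ⟨i, hi, rfl⟩ := Finset.mem_image.1 hy1
    obtain ⟨q, hq, rfl⟩ := Finset.mem_image.1 hy2
    obtain ⟨x, hx, hxi⟩ := hmain i hi q hq
    refine Finset.mem_image.2 ⟨x, Finset.mem_image.2 ⟨x, hx, rfl⟩, ?_⟩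
    have := i.2
    change (x : ℕ) + n = n - (i : ℕ) + (q : ℕ)
    omega
  have hcard := Finset.card_le_card hsub
  have hcard2 := Finset.card_image_le (s := P.image fun i : Fin (n + 1) => (i : ℕ)) (f := (· + n))
  omega

end core

end Pool.Agent.V8H79.KS
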