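import Pool.Agent.V8H79.KS.PA

/-!
# The Kodaira–Spencer map of a cyclic cover of the line
-/

set_option autoImplicit false

open Polynomial

namespace Pool.Agent.V8H79.KS

open Pool.Agent.V8H79.BM

variable {K : Type*} [Field K] {n : ℕ}

section basic

theorem pr_monic (s : Fin (n + 1) → K) : (pr s).Monic :=
  monic_prod_of_monic _ _ fun _ _ => monic_X_sub_C _

theorem pr_natDegree (s : Fin (n + 1) → K) : (pr s).natDegree = n + 1 := by
  unfold pr
  rw [natDegree_prod _ _ fun _ _ => X_sub_C_ne_zero _]
  simp

theorem co_monic (s : Fin (n + 1) → K) (l : Fin (n + 1)) : (co s l).Monic :=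
  monic_prod_of_monic _ _ fun _ _ => monic_X_sub_C _

theorem co_natDegree (s : Fin (n + 1) → K) (l : Fin (n + 1)) : (co s l).natDegree = n := by
  unfold co
  rw [natDegree_prod _ _ fun _ _ => X_sub_C_ne_zero _]
  simp

theorem eval_co_ne (s : Fin (n + 1) → K) {l j : Fin (n + 1)} (h : j ≠ l) :
    (co s l).eval (s j) = 0 := by
  unfold co
  rw [eval_prod]
  refine Finset.prod_eq_zero (Finset.mem_erase.2 ⟨h, Finset.mem_univ j⟩) ?_
  simp

/-- `∑ b l ∏ (x - s l')` -/
noncomputable def bc (s : Fin (n + 1) → K) (b : Fin (n + 1) → ℕ) : K[X] :=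
  ∑ l, (b l : K[X]) * co s l

theorem bc_natDegree (s : Fin (n + 1) → K) (b : Fin (n + 1) → ℕ) : (bc s b).natDegree ≤ n := by
  refine natDegree_sum_le_of_forall_le _ _ fun l _ => ?_
  refine natDegree_mul_le.trans ?_
  rw [co_natDegree, natDegree_natCast, zero_add]

theorem bc_coeff (s : Fin (n + 1) → K) (b : Fin (n + 1) → ℕ) :
    (bc s b).coeff n = ((∑ l, b l : ℕ) : K) := by
  unfold bc
  rw [finsetSum_coeff, Nat.cast_sum]
  refine Finset.sum_congr rfl fun l _ => ?_
  rw [← C_eq_natCast, coeff_C_mul]
  have h1 : (co s l).coeff n = 1 := by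
    have := co_monic s l
    rwa [Monic, leadingCoeff, co_natDegree] at this
  rw [h1, mul_one]

theorem eval_sum_co (s : Fin (n + 1) → K) (c : Fin (n + 1) → K) (j : Fin (n + 1)) :
    (∑ l, C (c l) * co s l).eval (s j) = c j * (co s j).eval (s j) := by
  rw [eval_finsetSum, Finset.sum_eq_single j]
  · simp
  · intro l _ hl
    rw [eval_mul, eval_co_ne s hl.symm, mul_zero]
  · intro h
    exact absurd (Finset.mem_univ _) h

theorem eval_bc (s : Fin (n + 1) → K) (b : Fin (n + 1) → ℕ) (j : Fin (n + 1)) :
    (bc s b).eval (s j) = (b j : K) * (co s j).eval (s j) := by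
  have := eval_sum_co s (fun l => (b l : K)) j
  simpa [bc] using this

theorem pr_dvd (s : Fin (n + 1) → K) (hs : Function.Injective s) (f : K[X])
    (hf : ∀ l, f.eval (s l) = 0) : pr s ∣ f := by
  refine Finset.prod_dvd_of_coprime ?_ fun l _ => dvd_iff_isRoot.2 (hf l)
  intro i _ j _ hij
  exact pairwise_coprime_X_sub_C hs hij

/-- the quotient by `pr s` -/
noncomputable def quo (s : Fin (n + 1) → K) : K[X] →ₗ[K] K[X] where
  toFun f := f /ₘ pr s
  map_add' f g := by
    apply mul_left_cancel₀ (pr_ne s)
    rw [mul_add]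
    have h1 := modByMonic_add_div f (pr s)
    have h2 := modByMonic_add_div g (pr s)
    have h3 := modByMonic_add_div (f + g) (pr s)
    rw [add_modByMonic] at h3
    linear_combination h3 - h1 - h2
  map_smul' c f := by
    apply mul_left_cancel₀ (pr_ne s)
    have h1 := modByMonic_add_div f (pr s)
    have h3 := modByMonic_add_div (c • f) (pr s)
    rw [smul_modByMonic, smul_eq_C_mul, smul_eq_C_mul] at h3
    rw [RingHom.id_apply, smul_eq_C_mul, smul_eq_C_mul]
    linear_combination h3 - C c * h1

theorem quo_apply (s : Fin (n + 1) → K) (f : K[X]) : quo s f = f /ₘ pr s := rfl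

/-- the Kodaira–Spencer map on polynomials -/
noncomputable def Ph (m : ℕ) (s : Fin (n + 1) → K) (b : Fin (n + 1) → ℕ) : K[X] →ₗ[K] K[X] :=
  (m : K)⁻¹ • (quo s ∘ₗ LinearMap.mulRight K (bc s b)) - derivative

theorem Ph_apply (m : ℕ) (s : Fin (n + 1) → K) (b : Fin (n + 1) → ℕ) (Q : K[X]) :
    Ph m s b Q = C (m : K)⁻¹ * ((Q * bc s b) /ₘ pr s) - derivative Q := by
  rw [← smul_eq_C_mul]
  rfl

theorem quo_natDegree (s : Fin (n + 1) → K) (b : Fin (n + 1) → ℕ) {Q : K[X]} {q : ℕ}
    (hQ : Q.natDegree ≤ q) : ((Q * bc s b) /ₘ pr s).natDegree ≤ q - 1 := by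
  rw [natDegree_divByMonic _ (pr_monic s), pr_natDegree]
  have h1 : (Q * bc s b).natDegree ≤ q + n :=
    natDegree_mul_le.trans (add_le_add hQ (bc_natDegree s b))
  omega

theorem Ph_natDegree (m : ℕ) (s : Fin (n + 1) → K) (b : Fin (n + 1) → ℕ) {Q : K[X]} {q : ℕ}
    (hQ : Q.natDegree ≤ q) : (Ph m s b Q).natDegree ≤ q - 1 := by
  rw [Ph_apply]
  refine (natDegree_sub_le _ _).trans (max_le ?_ ?_)
  · exact (natDegree_C_mul_le _ _).trans (quo_natDegree s b hQ)
  · exact (natDegree_derivative_le Q).trans (Nat.sub_le_sub_right hQ 1)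

theorem Ph_coeff (m : ℕ) (s : Fin (n + 1) → K) (b : Fin (n + 1) → ℕ) (q : ℕ) :
    (Ph m s b (X ^ (q + 1))).coeff q = (m : K)⁻¹ * ((∑ l, b l : ℕ) : K) - ((q : K) + 1) := by
  rw [Ph_apply, coeff_sub, coeff_C_mul, derivative_X_pow, coeff_C_mul, Nat.add_sub_cancel,
    coeff_X_pow, if_pos rfl, mul_one]
  push_cast
  congr 2
  set u := (X ^ (q + 1) * bc s b) /ₘ pr s with hu
  have h1 := modByMonic_add_div (X ^ (q + 1) * bc s b) (pr s)
  rw [← hu] at h1
  have h2 := congrArg (fun f => coeff f (n + 1 + q)) h1
  simp only [coeff_add] at h2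
  rw [coeff_mul_add_eq_of_natDegree_le (pr_natDegree s).le (by
    have := quo_natDegree s b (Q := X ^ (q + 1)) (q := q + 1) (by simp)
    rwa [Nat.add_sub_cancel] at this), coeff_eq_zero_of_natDegree_lt (by
      have h3 := natDegree_modByMonic_lt (X ^ (q + 1) * bc s b) (pr_monic s) (by
        intro h
        have := pr_natDegree s
        rw [h, natDegree_one] at this
        omega)
      rw [pr_natDegree] at h3
      omega), zero_add] at h2
  have h4 : (pr s).coeff (n + 1) = 1 := by
    have := pr_monic s
    rwa [Monic, leadingCoeff, pr_natDegree] at this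
  rw [h4, one_mul, show n + 1 + q = n + (q + 1) by ring, coeff_X_pow_mul, bc_coeff] at h2
  rw [h2]
  push_cast
  rfl

/-- the vector of the coefficients -/
noncomputable def vec : K[X] →ₗ[K] (Fin n → K) where
  toFun f i := f.coeff i
  map_add' f g := by
    funext i
    simp
  map_smul' c f := by
    funext i
    simp

theorem vec_apply (f : K[X]) (i : Fin n) : vec f i = f.coeff i := rfl

theorem sum_vec (f : K[X]) (hf : f.natDegree < n) :
    ∑ j : Fin n, C (vec f j) * X ^ (j : ℕ) = f := by
  ext k
  by_cases hk : k < n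
  · have h1 := coeff_pol (vec f : Fin n → K) ⟨k, hk⟩
    exact h1
  · rw [coeff_eq_zero_of_natDegree_lt (show f.natDegree < k by omega)]
    have h2 := pol_degree (vec f : Fin n → K)
    exact coeff_eq_zero_of_natDegree_lt (show (pol (vec f : Fin n → K)).natDegree < k by omega)

end basic

section functional

variable (m : ℕ) (r : ℕ) (s : Fin (n + 1) → K) (b : Fin (n + 1) → ℕ)

/-- the vector of a functional -/
noncomputable def tau : Module.Dual K (Fin n → K) →ₗ[K] (Fin (n + 1) → K) where
  toFun ψ l := ψ (vec (Ph m s b (Lagrange.basis Finset.univ s l)))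
  map_add' ψ φ := by
    funext l
    simp
  map_smul' c ψ := by
    funext l
    simp

/-- the functionals which vanish on the first `r` coordinates -/
def FV (ψ : Module.Dual K (Fin n → K)) : Prop :=
  ∀ a : Fin n → K, (∀ i : Fin n, r ≤ (i : ℕ) → a i = 0) → ψ a = 0

variable (hs : Function.Injective s)

include hs in
theorem tau_eval (ψ : Module.Dual K (Fin n → K)) (Q : K[X]) (hQ : Q.natDegree ≤ n) :
    ∑ l, tau m s b ψ l * Q.eval (s l) = ψ (vec (Ph m s b Q)) := by
  have h1 : Q = Lagrange.interpolate Finset.univ s fun l => Q.eval (s l) := by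
    refine Lagrange.eq_interpolate hs.injOn ?_
    rw [Finset.card_univ, Fintype.card_fin]
    exact lt_of_le_of_lt degree_le_natDegree (by exact_mod_cast Nat.lt_succ_of_le hQ)
  rw [Lagrange.interpolate_apply] at h1
  conv_rhs => rw [h1]
  simp only [← smul_eq_C_mul, map_sum, map_smul]
  refine Finset.sum_congr rfl fun l _ => ?_
  rw [smul_eq_mul, mul_comm]
  rfl

/-- a functional vanishing on the first `r` coordinates vanishes on small degrees -/
theorem FV.deg {r : ℕ} {ψ : Module.Dual K (Fin n → K)} (hψ : FV r ψ) {f : K[X]}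
    (hf : f.natDegree < r) : ψ (vec f) = 0 := by
  refine hψ _ fun i hi => ?_
  rw [vec_apply]
  exact coeff_eq_zero_of_natDegree_lt (by omega)

include hs in
theorem tau_mom {r : ℕ} (hr : 1 ≤ r) (hrn : r ≤ n) {ψ : Module.Dual K (Fin n → K)}
    (hψ : FV r ψ) (q : ℕ) (hq : q ≤ r) : ∑ l, tau m s b ψ l * s l ^ q = 0 := by
  have h1 := tau_eval m s b hs ψ (X ^ q) (by rw [natDegree_X_pow]; omega)
  simp only [eval_pow, eval_X] at h1
  rw [h1]
  refine hψ.deg ?_
  have h2 := Ph_natDegree m s b (Q := X ^ q) (q := q) (by simp)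
  omega

include hs in
theorem tau_inj {r : ℕ} (hB : ∀ q, r + 1 ≤ q → q ≤ n → ((∑ l, b l : ℕ) : K) ≠ m * q)
    (hm : (m : K) ≠ 0) {ψ : Module.Dual K (Fin n → K)}
    (hψ : FV r ψ) (h0 : tau m s b ψ = 0) : ψ = 0 := by
  classical
  have hzero : ∀ Q : K[X], Q.natDegree ≤ n → ψ (vec (Ph m s b Q)) = 0 := by
    intro Q hQ
    rw [← tau_eval m s b hs ψ Q hQ, h0]
    simp
  have key : ∀ i : ℕ, i < n → ∀ f : K[X], f.natDegree ≤ i → ψ (vec f) = 0 := by
    intro i
    induction i with
    | zero =>
      intro hi f hf
      rcases Nat.eq_zero_or_pos r with h | h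
      · have h1 := Ph_natDegree m s b (Q := X ^ (0 + 1)) (q := 1) (by simp)
        have h2 := Ph_coeff m s b 0
        have h3 : Ph m s b (X ^ (0 + 1)) =
            C ((m : K)⁻¹ * ((∑ l, b l : ℕ) : K) - (((0 : ℕ) : K) + 1)) := by
          rw [← h2]
          exact eq_C_of_natDegree_le_zero h1
        set c := (m : K)⁻¹ * ((∑ l, b l : ℕ) : K) - (((0 : ℕ) : K) + 1) with hc
        have hc0 : c ≠ 0 := by
          intro h4
          refine hB 1 (by omega) (by omega) ?_
          rw [hc] at h4
          field_simp at h4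
          push_cast at h4 ⊢
          linear_combination h4
        have h5 : f = (f.coeff 0 * c⁻¹) • Ph m s b (X ^ (0 + 1)) := by
          rw [h3, smul_eq_C_mul, ← C_mul, mul_assoc, inv_mul_cancel₀ hc0, mul_one]
          exact eq_C_of_natDegree_le_zero hf
        rw [h5, map_smul, map_smul, hzero _ (by simp; omega), smul_zero]
      · exact hψ.deg (by omega)
    | succ i ih =>
      intro hi f hf
      rcases Nat.lt_or_ge (i + 1) r with h | h
      · exact hψ.deg (by omega)
      · have h1 := Ph_natDegree m s b (Q := X ^ (i + 1 + 1)) (q := i + 1 + 1) (by simp)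
        have h2 := Ph_coeff m s b (i + 1)
        set c := (m : K)⁻¹ * ((∑ l, b l : ℕ) : K) - (((i + 1 : ℕ) : K) + 1) with hc
        have hc0 : c ≠ 0 := by
          intro h4
          refine hB (i + 1 + 1) (by omega) (by omega) ?_
          rw [hc] at h4
          field_simp at h4
          push_cast at h4 ⊢
          linear_combination h4
        set g := Ph m s b (X ^ (i + 1 + 1)) with hg
        have h5 : (f - (f.coeff (i + 1) * c⁻¹) • g).natDegree ≤ i := by
          have h6 : (f - (f.coeff (i + 1) * c⁻¹) • g).natDegree ≤ i + 1 := by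
            refine (natDegree_sub_le _ _).trans (max_le hf ?_)
            exact (natDegree_smul_le _ _).trans h1
          have h7 : (f - (f.coeff (i + 1) * c⁻¹) • g).coeff (i + 1) = 0 := by
            rw [coeff_sub, coeff_smul, h2, smul_eq_mul, mul_assoc, inv_mul_cancel₀ hc0, mul_one,
              sub_self]
          rw [natDegree_le_iff_coeff_eq_zero] at h6 ⊢
          intro N hN
          rcases Nat.lt_or_ge (i + 1) N with h8 | h8
          · exact h6 N h8
          · rw [show N = i + 1 by omega]
            exact h7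
        have h6 := ih (by omega) _ h5
        rw [map_sub, map_sub, map_smul, map_smul, hg, hzero _ (by simp; omega), smul_zero,
          sub_zero] at h6
        exact h6
  refine LinearMap.ext fun a => ?_
  rcases Nat.eq_zero_or_pos n with h | h
  · have : a = 0 := by
      funext i
      exact absurd i.2 (by omega)
    rw [this]
    simp
  · have h1 : a = vec (pol a) := by
      funext i
      rw [vec_apply, coeff_pol]
    rw [h1]
    exact key (n - 1) (by omega) _ (pol_degree a)

include hs in
/-- **The Gauss–Manin connection and the Kodaira–Spencer map.** -/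
theorem exists_gm {r : ℕ} (hm : (m : K) ≠ 0)
    (δ : Derivation ℤ K K) :
    ∃ M : Matrix (Fin n) (Fin n) K, IsGM δ m s b M ∧
      ∀ ψ : Module.Dual K (Fin n → K), FV r ψ → ∀ a : Fin n → K,
        (∀ i : Fin n, r ≤ (i : ℕ) → a i = 0) →
        ψ (nab δ M a) = - ∑ l, tau m s b ψ l * (pol a).eval (s l) * δ (s l) := by
  classical
  set Z : K[X] := ∑ l, C ((b l : K) * δ (s l)) * co s l with hZ
  have hZd : Z.natDegree ≤ n := by
    refine natDegree_sum_le_of_forall_le _ _ fun l _ => ?_
    exact (natDegree_C_mul_le _ _).trans (co_natDegree s l).le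
  let Q : Fin n → K[X] := fun i =>
    Lagrange.interpolate Finset.univ s fun l => -(s l ^ (i : ℕ) * δ (s l))
  have hQe : ∀ i l, (Q i).eval (s l) = -(s l ^ (i : ℕ) * δ (s l)) := fun i l =>
    Lagrange.eval_interpolate_at_node _ hs.injOn (Finset.mem_univ l)
  have hQd : ∀ i, (Q i).natDegree ≤ n := by
    intro i
    have h1 := Lagrange.degree_interpolate_lt (s := Finset.univ) (v := s)
      (fun l => -(s l ^ (i : ℕ) * δ (s l))) hs.injOn
    rw [Finset.card_univ, Fintype.card_fin] at h1
    have h2 : (Q i).degree < ((n + 1 : ℕ) : WithBot ℕ) := h1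
    by_cases h0 : Q i = 0
    · rw [h0, natDegree_zero]
      omega
    · rw [degree_eq_natDegree h0] at h2
      have : (Q i).natDegree < n + 1 := by exact_mod_cast h2
      omega
  have hdvd : ∀ i : Fin n, pr s ∣ X ^ (i : ℕ) * Z + Q i * bc s b := by
    intro i
    refine pr_dvd s hs _ fun l => ?_
    rw [eval_add, eval_mul, eval_mul, eval_bc, hZ, eval_sum_co, hQe, eval_pow, eval_X]
    ring
  choose U hU using hdvd
  have hUd : ∀ i : Fin n, (U i).natDegree ≤ n - 1 := by
    intro i
    by_cases h0 : U i = 0
    · rw [h0, natDegree_zero]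
      omega
    · have h1 : (pr s * U i).natDegree = n + 1 + (U i).natDegree := by
        rw [natDegree_mul (pr_ne s) h0, pr_natDegree]
      have h2 : (pr s * U i).natDegree ≤ n - 1 + n + 1 := by
        rw [← hU i]
        refine (natDegree_add_le _ _).trans (max_le ?_ ?_)
        · refine natDegree_mul_le.trans ?_
          rw [natDegree_X_pow]
          have := i.2
          omega
        · refine natDegree_mul_le.trans ?_
          have := hQd i
          have := bc_natDegree s b
          have := i.2
          omega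
      omega
  set R : Fin n → K[X] := fun i => C (m : K)⁻¹ * U i - derivative (Q i) with hR
  have hRd : ∀ i : Fin n, (R i).natDegree < n := by
    intro i
    have h1 : (R i).natDegree ≤ n - 1 := by
      refine (natDegree_sub_le _ _).trans (max_le ?_ ?_)
      · exact (natDegree_C_mul_le _ _).trans (hUd i)
      · exact (natDegree_derivative_le _).trans (Nat.sub_le_sub_right (hQd i) 1)
    have := i.2
    omega
  refine ⟨Matrix.of fun i => vec (R i), ?_, ?_⟩
  · intro i
    refine ⟨Q i, ?_⟩
    have h1 : ∑ j : Fin n, C ((Matrix.of fun i => (vec (R i) : Fin n → K)) i j) * X ^ (j : ℕ) =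
        R i := sum_vec (R i) (hRd i)
    rw [h1]
    have h2 := hU i
    have h3 : (m : K[X]) * C (m : K)⁻¹ = 1 := by
      rw [← C_eq_natCast, ← C_mul, mul_inv_cancel₀ hm, C_1]
    change X ^ (i : ℕ) * Z = (m : K[X]) * pr s * (C (m : K)⁻¹ * U i - derivative (Q i) +
      derivative (Q i)) - Q i * bc s b
    linear_combination h2 - pr s * U i * h3
  · intro ψ hψ a ha
    -- small remainder
    have hV : ∀ i : Fin n, (i : ℕ) < r → ψ (vec (R i)) = ψ (vec (Ph m s b (Q i))) := by
      intro i hi
      set V := U i - (Q i * bc s b) /ₘ pr s with hVdef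
      have h1 : pr s * V = X ^ (i : ℕ) * Z + (Q i * bc s b) %ₘ pr s := by
        have h2 := modByMonic_add_div (Q i * bc s b) (pr s)
        rw [hVdef]
        linear_combination - h2 - hU i
      have h2 : R i = Ph m s b (Q i) + (m : K)⁻¹ • V := by
        rw [hR, Ph_apply, smul_eq_C_mul, hVdef]
        ring
      have h3 : V.natDegree < r := by
        by_cases h0 : V = 0
        · rw [h0, natDegree_zero]
          omega
        · have h4 : (pr s * V).natDegree = n + 1 + V.natDegree := by
            rw [natDegree_mul (pr_ne s) h0, pr_natDegree]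
          have h5 : (pr s * V).natDegree ≤ (i : ℕ) + n := by
            rw [h1]
            refine (natDegree_add_le _ _).trans (max_le ?_ ?_)
            · refine natDegree_mul_le.trans ?_
              rw [natDegree_X_pow]
              omega
            · have h6 := natDegree_modByMonic_lt (Q i * bc s b) (pr_monic s) (by
                intro h
                have := pr_natDegree s
                rw [h, natDegree_one] at this
                omega)
              rw [pr_natDegree] at h6
              omega
          omega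
      rw [h2, map_add, map_add, map_smul, map_smul, hψ.deg h3, smul_zero, add_zero]
    have h1 : nab δ (Matrix.of fun i => (vec (R i) : Fin n → K)) a =
        (fun j => δ (a j)) + ∑ i, a i • (vec (R i) : Fin n → K) := by
      funext j
      simp only [nab, Matrix.of_apply, Pi.add_apply, Finset.sum_apply, Pi.smul_apply, smul_eq_mul]
    rw [h1, map_add, hψ (fun j => δ (a j)) (fun i hi => by rw [ha i hi, map_zero]), zero_add,
      map_sum]
    have h2 : ∀ i : Fin n, ψ (a i • (vec (R i) : Fin n → K)) =
        - ∑ l, a i * (tau m s b ψ l * s l ^ (i : ℕ) * δ (s l)) := by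
      intro i
      rw [map_smul]
      rcases Nat.lt_or_ge (i : ℕ) r with hi | hi
      · rw [hV i hi, ← tau_eval m s b hs ψ (Q i) (hQd i), smul_eq_mul, Finset.mul_sum,
          ← Finset.sum_neg_distrib]
        refine Finset.sum_congr rfl fun l _ => ?_
        rw [hQe]
        ring
      · rw [ha i hi]
        simp
    rw [Finset.sum_congr rfl fun i _ => h2 i, Finset.sum_neg_distrib, Finset.sum_comm]
    congr 1
    refine Finset.sum_congr rfl fun l _ => ?_
    rw [eval_pol, Finset.mul_sum, Finset.sum_mul]
    refine Finset.sum_congr rfl fun i _ => ?_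
    ring

end functional

end Pool.Agent.V8H79.KS
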