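import Pool.Agent.V8H79.BM.Defs

/-!
# Ranks, minors, iterates of a Hasse–Witt matrix
-/

set_option autoImplicit false

open Polynomial

namespace Pool.Agent.V8H79.KS

section minors

/-- rows which form a basis of the row space -/
theorem exists_rows {K : Type*} [Field K] {a b : ℕ} (H : Matrix (Fin a) (Fin b) K) :
    ∃ f : Fin H.rank → Fin a, LinearIndependent K (fun i => H (f i)) := by
  classical
  obtain ⟨f, hf1, hf2, hf3⟩ := Submodule.exists_fun_fin_finrank_span_eq K (Set.range H.row)
  have h1 : Module.finrank K (Submodule.span K (Set.range H.row)) = H.rank :=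
    (Matrix.rank_eq_finrank_span_row H).symm
  choose g hg using hf1
  refine ⟨fun i => g (Fin.cast h1.symm i), ?_⟩
  have h2 : (fun i : Fin H.rank => H (g (Fin.cast h1.symm i))) =
      f ∘ (Fin.cast h1.symm) := by
    funext i
    exact hg _
  rw [h2]
  exact hf3.comp _ (Fin.cast_injective _)

/-- a nonzero minor of maximal size -/
theorem exists_minor {K : Type*} [Field K] {a b : ℕ} (H : Matrix (Fin a) (Fin b) K) :
    ∃ (f : Fin H.rank → Fin a) (g : Fin H.rank → Fin b), (H.submatrix f g).det ≠ 0 := by
  classical
  obtain ⟨f, hf⟩ := exists_rows H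
  have h1 : (H.submatrix f id).rank = H.rank := by
    have h2 : LinearIndependent K (H.submatrix f id).row := hf
    rw [h2.rank_matrix, Fintype.card_fin]
  have h3 : (H.submatrix f id).transpose.rank = H.rank := by
    rw [Matrix.rank_transpose, h1]
  obtain ⟨g, hg⟩ := exists_rows (H.submatrix f id).transpose
  refine ⟨f, fun i => g (Fin.cast h3.symm i), ?_⟩
  have h4 : LinearIndependent K (fun i => (H.submatrix f id).transpose
      (g (Fin.cast h3.symm i))) := hg.comp _ (Fin.cast_injective _)
  have h5 : (H.submatrix f fun i => g (Fin.cast h3.symm i)).transpose.det ≠ 0 := by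
    have h6 : LinearIndependent K
        (H.submatrix f fun i => g (Fin.cast h3.symm i)).transpose.row := h4
    have h7 := (Matrix.linearIndependent_rows_iff_isUnit).1 h6
    exact ((Matrix.isUnit_iff_isUnit_det _).1 h7).ne_zero
  rwa [Matrix.det_transpose] at h5

theorem rank_ge_of_minor {K : Type*} [Field K] {a b ρ : ℕ} (H : Matrix (Fin a) (Fin b) K)
    (f : Fin ρ → Fin a) (g : Fin ρ → Fin b) (h : (H.submatrix f g).det ≠ 0) : ρ ≤ H.rank := by
  classical
  have h1 : H.submatrix f g = ((1 : Matrix (Fin a) (Fin a) K).submatrix f id) * H *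
      ((1 : Matrix (Fin b) (Fin b) K).submatrix id g) := by
    ext i j
    simp [Matrix.mul_apply, Matrix.one_apply]
  have h2 : (H.submatrix f g).rank = ρ := by
    rw [Matrix.rank_of_isUnit _ ((Matrix.isUnit_iff_isUnit_det _).2 (isUnit_iff_ne_zero.2 h)),
      Fintype.card_fin]
  rw [← h2, h1]
  exact (Matrix.rank_mul_le_left _ _).trans (Matrix.rank_mul_le_right _ _)

/-- an element of the ring outside the zeros of which the rank does not drop -/
theorem exists_open {A K : Type*} [CommRing A] [Field K] {a b : ℕ} (H : Matrix (Fin a) (Fin b) A)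
    (θ : A →+* K) : ∃ D : A, θ D ≠ 0 ∧ ∀ (L : Type) [Field L] (θ' : A →+* L), θ' D ≠ 0 →
      (H.map θ).rank ≤ (H.map θ').rank := by
  classical
  obtain ⟨f, g, h⟩ := exists_minor (H.map θ)
  refine ⟨(H.submatrix f g).det, ?_, ?_⟩
  · rw [RingHom.map_det]
    exact h
  · intro L _ θ' h'
    refine rank_ge_of_minor (H.map θ') f g ?_
    rw [RingHom.map_det] at h'
    exact h'

/-- the rank is invariant under extension of the field -/
theorem rank_map_field {K L : Type*} [Field K] [Field L] (φ : K →+* L) {a b : ℕ}
    (H : Matrix (Fin a) (Fin b) K) : (H.map φ).rank = H.rank := by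
  refine le_antisymm ?_ ?_
  · obtain ⟨f, g, h⟩ := exists_minor (H.map φ)
    refine rank_ge_of_minor H f g fun h0 => h ?_
    have h1 := RingHom.map_det φ (H.submatrix f g)
    rw [h0, map_zero] at h1
    exact h1.symm
  · obtain ⟨f, g, h⟩ := exists_minor H
    refine rank_ge_of_minor (H.map φ) f g ?_
    have h1 := RingHom.map_det φ (H.submatrix f g)
    change ((RingHom.mapMatrix φ) (H.submatrix f g)).det ≠ 0
    rw [← h1]
    exact fun h2 => h ((map_eq_zero φ).1 h2)

end minors

section iterates

/-- the iterates `H ^ (p ^ (i - 1)) ⋯ H ^ (p) H`, where `H ^ (q)` is the matrix of the `q`-th powers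
of the entries of `H` -/
def it {R : Type*} [CommSemiring R] (p : ℕ) {r : ℕ} (H : Matrix (Fin r) (Fin r) R) :
    ℕ → Matrix (Fin r) (Fin r) R
  | 0 => 1
  | i + 1 => (it p H i).map (fun x => x ^ p) * H

theorem it_zero {R : Type*} [CommSemiring R] (p : ℕ) {r : ℕ} (H : Matrix (Fin r) (Fin r) R) :
    it p H 0 = 1 := rfl

theorem it_succ {R : Type*} [CommSemiring R] (p : ℕ) {r : ℕ} (H : Matrix (Fin r) (Fin r) R)
    (i : ℕ) : it p H (i + 1) = (it p H i).map (fun x => x ^ p) * H := rfl

theorem it_map {R S : Type*} [CommSemiring R] [CommSemiring S] (p : ℕ) {r : ℕ}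
    (H : Matrix (Fin r) (Fin r) R) (φ : R →+* S) (i : ℕ) :
    (it p H i).map φ = it p (H.map φ) i := by
  induction i with
  | zero =>
    rw [it_zero, it_zero]
    exact Matrix.map_one φ (map_zero φ) (map_one φ)
  | succ i ih =>
    rw [it_succ, it_succ, ← ih, Matrix.map_mul]
    congr 1
    ext x y
    exact map_pow φ _ _

variable {K : Type*} [Field K] (p : ℕ) [hp : Fact p.Prime] [CharP K p] {r : ℕ}

theorem map_pow_eq (H : Matrix (Fin r) (Fin r) K) :
    H.map (fun x => x ^ p) = H.map (frobenius K p) := rfl

theorem rank_pow (H : Matrix (Fin r) (Fin r) K) : (H.map (fun x => x ^ p)).rank = H.rank :=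
  rank_map_field (frobenius K p) H

theorem it_succ' (H : Matrix (Fin r) (Fin r) K) (i : ℕ) :
    ∃ B : Matrix (Fin r) (Fin r) K, it p H (i + 1) = B * it p H i := by
  induction i with
  | zero => exact ⟨it p H 1, by rw [it_zero, mul_one]⟩
  | succ i ih =>
    obtain ⟨B, hB⟩ := ih
    refine ⟨B.map (fun x => x ^ p), ?_⟩
    have h1 : (B * it p H i).map (fun x => x ^ p) =
        B.map (fun x => x ^ p) * (it p H i).map (fun x => x ^ p) := by
      rw [map_pow_eq, map_pow_eq, map_pow_eq, Matrix.map_mul]
    calc it p H (i + 1 + 1) = (it p H (i + 1)).map (fun x => x ^ p) * H := it_succ p H (i + 1)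
      _ = (B * it p H i).map (fun x => x ^ p) * H := by rw [hB]
      _ = B.map (fun x => x ^ p) * it p H (i + 1) := by rw [h1, mul_assoc, it_succ p H i]

/-- the kernel of the iterate -/
def ki (H : Matrix (Fin r) (Fin r) K) (i : ℕ) : Submodule K (Fin r → K) :=
  LinearMap.ker (it p H i).mulVecLin

omit hp [CharP K p] in
theorem mem_ki {H : Matrix (Fin r) (Fin r) K} {i : ℕ} {v : Fin r → K} :
    v ∈ ki p H i ↔ (it p H i).mulVec v = 0 := Iff.rfl

omit hp [CharP K p] in
theorem finrank_ker (H : Matrix (Fin r) (Fin r) K) :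
    H.rank + Module.finrank K (LinearMap.ker H.mulVecLin) = r := by
  have h2 := LinearMap.finrank_range_add_finrank_ker H.mulVecLin
  rw [Module.finrank_fintype_fun_eq_card, Fintype.card_fin] at h2
  exact h2

theorem ki_mono (H : Matrix (Fin r) (Fin r) K) (i : ℕ) : ki p H i ≤ ki p H (i + 1) := by
  intro v hv
  obtain ⟨B, hB⟩ := it_succ' p H i
  rw [mem_ki] at hv ⊢
  rw [hB, ← Matrix.mulVec_mulVec, hv, Matrix.mulVec_zero]

theorem ki_stab (H : Matrix (Fin r) (Fin r) K) (i : ℕ) (h : ki p H i = ki p H (i + 1)) :
    ki p H (i + 1) = ki p H (i + 1 + 1) := by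
  refine le_antisymm (ki_mono p H (i + 1)) ?_
  intro v hv
  rw [mem_ki, it_succ, ← Matrix.mulVec_mulVec] at hv ⊢
  -- the kernels of the twists agree
  set A := (it p H i).map (fun x => x ^ p) with hA
  set B := (it p H (i + 1)).map (fun x => x ^ p) with hB
  have hle : LinearMap.ker A.mulVecLin ≤ LinearMap.ker B.mulVecLin := by
    intro w hw
    rw [LinearMap.mem_ker, Matrix.mulVecLin_apply] at hw ⊢
    obtain ⟨C, hC⟩ := it_succ' p H i
    rw [hB, hC, map_pow_eq, Matrix.map_mul, ← map_pow_eq, ← map_pow_eq, ← hA,
      ← Matrix.mulVec_mulVec, hw, Matrix.mulVec_zero]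
  have hfr : Module.finrank K (LinearMap.ker A.mulVecLin) =
      Module.finrank K (LinearMap.ker B.mulVecLin) := by
    have h1 := finrank_ker A
    have h2 := finrank_ker B
    have h3 := finrank_ker (it p H i)
    have h4 := finrank_ker (it p H (i + 1))
    have h5 : A.rank = (it p H i).rank := rank_pow p _
    have h6 : B.rank = (it p H (i + 1)).rank := rank_pow p _
    have h7 : Module.finrank K (LinearMap.ker (it p H i).mulVecLin) =
        Module.finrank K (LinearMap.ker (it p H (i + 1)).mulVecLin) := by
      change Module.finrank K (ki p H i) = Module.finrank K (ki p H (i + 1))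
      rw [h]
    omega
  have heq := Submodule.eq_of_le_of_finrank_eq hle hfr
  have h1 : H.mulVec v ∈ LinearMap.ker B.mulVecLin := hv
  rw [← heq] at h1
  exact h1

/-- the ranks of the iterates are constant from `r` on -/
theorem rank_it_ge (H : Matrix (Fin r) (Fin r) K) (i : ℕ) (hi : r ≤ i) :
    (it p H r).rank ≤ (it p H i).rank := by
  classical
  have hP : ki p H r = ki p H (r + 1) := by
    by_contra hne
    have h1 : ∀ j, j ≤ r + 1 → j ≤ Module.finrank K (ki p H j) := by
      intro j
      induction j with
      | zero => intro _; exact Nat.zero_le _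
      | succ j ih =>
        intro hj
        have h2 := ih (by omega)
        have h3 : ki p H j ≠ ki p H (j + 1) := by
          intro h
          apply hne
          have h4 : ∀ l, j ≤ l → ki p H l = ki p H (l + 1) := by
            intro l hl
            induction l, hl using Nat.le_induction with
            | base => exact h
            | succ l _ ih => exact ki_stab p H l ih
          exact h4 r (by omega)
        have h4 := Submodule.finrank_lt_finrank_of_lt (lt_of_le_of_ne (ki_mono p H j) h3)
        omega
    have h2 := h1 (r + 1) le_rfl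
    have h3 := Submodule.finrank_le (ki p H (r + 1))
    rw [Module.finrank_fintype_fun_eq_card, Fintype.card_fin] at h3
    omega
  have h4 : ∀ l, r ≤ l → ki p H l = ki p H (l + 1) := by
    intro l hl
    induction l, hl using Nat.le_induction with
    | base => exact hP
    | succ l _ ih => exact ki_stab p H l ih
  have h5 : ∀ l, r ≤ l → ki p H l = ki p H r := by
    intro l hl
    induction l, hl using Nat.le_induction with
    | base => rfl
    | succ l hl ih => rw [← h4 l hl, ih]
  have h6 := finrank_ker (it p H r)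
  have h7 := finrank_ker (it p H i)
  have h8 : Module.finrank K (LinearMap.ker (it p H i).mulVecLin) =
      Module.finrank K (LinearMap.ker (it p H r).mulVecLin) := by
    change Module.finrank K (ki p H i) = Module.finrank K (ki p H r)
    rw [h5 i hi]
  omega

end iterates

end Pool.Agent.V8H79.KS
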