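import Pool.Agent.V8H79.KS.PB
import Pool.Agent.V8H79.KS.PM

/-!
# The rank of the Hasse–Witt matrix in characteristic `p`
-/

set_option autoImplicit false

open Polynomial

namespace Pool.Agent.V8H79.KS

open Pool.Agent.V8H79.BM

variable {K : Type*} [Field K] {n : ℕ}

/-- the first `r` coordinates -/
def fil (K : Type*) [Field K] (n r : ℕ) : Submodule K (Fin n → K) where
  carrier := {a | ∀ i : Fin n, r ≤ (i : ℕ) → a i = 0}
  zero_mem' := by
    intro i _
    rfl
  add_mem' {a b} ha hb := by
    intro i hi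
    rw [Pi.add_apply, ha i hi, hb i hi, add_zero]
  smul_mem' c a ha := by
    intro i hi
    rw [Pi.smul_apply, ha i hi, smul_zero]

theorem mem_fil {r : ℕ} {a : Fin n → K} :
    a ∈ fil K n r ↔ ∀ i : Fin n, r ≤ (i : ℕ) → a i = 0 := Iff.rfl

theorem finrank_fil {r : ℕ} (hr : r ≤ n) : Module.finrank K (fil K n r) ≤ r := by
  let φ : fil K n r →ₗ[K] (Fin r → K) :=
    { toFun := fun v i => (v : Fin n → K) (Fin.castLE hr i)
      map_add' := fun _ _ => rfl
      map_smul' := fun _ _ => rfl }
  have hinj : Function.Injective φ := by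
    rw [injective_iff_map_eq_zero]
    intro v hv
    apply Subtype.ext
    funext i
    rcases Nat.lt_or_ge (i : ℕ) r with hi | hi
    · exact congrFun hv ⟨i, hi⟩
    · exact v.2 i hi
  have h1 := LinearMap.finrank_le_finrank_of_injective hinj
  rwa [Module.finrank_fintype_fun_eq_card, Fintype.card_fin] at h1

/-- extension by zero -/
def ext (K : Type*) [Field K] (n r : ℕ) : (Fin r → K) →ₗ[K] (Fin n → K) where
  toFun w i := if h : (i : ℕ) < r then w ⟨i, h⟩ else 0
  map_add' w v := by
    funext i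
    by_cases h : (i : ℕ) < r
    · simp [h]
    · simp [h]
  map_smul' c w := by
    funext i
    by_cases h : (i : ℕ) < r
    · simp [h]
    · simp [h]

theorem ext_lt {r : ℕ} (w : Fin r → K) (i : Fin n) (h : (i : ℕ) < r) :
    ext K n r w i = w ⟨i, h⟩ := dif_pos h

theorem ext_ge {r : ℕ} (w : Fin r → K) (i : Fin n) (h : r ≤ (i : ℕ)) :
    ext K n r w i = 0 := dif_neg (by omega)

theorem ext_inj {r : ℕ} (hr : r ≤ n) : Function.Injective (ext K n r) := by
  intro w v h
  funext i
  have h1 := congrFun h (Fin.castLE hr i)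
  rw [ext_lt w (Fin.castLE hr i) i.2, ext_lt v (Fin.castLE hr i) i.2] at h1
  exact h1

theorem pol_ext {r : ℕ} (hr : r ≤ n) (w : Fin r → K) :
    pol (ext K n r w) = ∑ j : Fin r, C (w j) * X ^ (j : ℕ) := by
  ext k
  by_cases hk : k < n
  · have h10 : (pol (ext K n r w)).coeff k = ext K n r w ⟨k, hk⟩ :=
      coeff_pol (ext K n r w) ⟨k, hk⟩
    rw [h10]
    by_cases hkr : k < r
    · have h9 : (∑ j : Fin r, C (w j) * X ^ (j : ℕ)).coeff k = w ⟨k, hkr⟩ :=
        coeff_pol w ⟨k, hkr⟩
      rw [h9]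
      exact ext_lt w ⟨k, hk⟩ hkr
    · rw [ext_ge w ⟨k, hk⟩ (not_lt.1 hkr), finsetSum_coeff]
      refine (Finset.sum_eq_zero fun j _ => ?_).symm
      rw [coeff_C_mul, coeff_X_pow, if_neg (by have := j.2; omega), mul_zero]
  · rw [pol, finsetSum_coeff, finsetSum_coeff, Finset.sum_eq_zero, Finset.sum_eq_zero]
    · intro j _
      rw [coeff_C_mul, coeff_X_pow, if_neg (by have := j.2; omega), mul_zero]
    · intro j _
      rw [coeff_C_mul, coeff_X_pow, if_neg (by have := j.2; omega), mul_zero]

/-- the coefficients of the image under the Cartier operator (their `p`-th powers) -/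
noncomputable def cart (p r : ℕ) (s : Fin (n + 1) → K) (e : Fin (n + 1) → ℕ) :
    (Fin n → K) →ₗ[K] (Fin r → K) where
  toFun a u := (X * (pol a * gg s e)).coeff (p * ((u : ℕ) + 1))
  map_add' a b := by
    funext u
    simp only [pol_add, add_mul, mul_add, coeff_add, Pi.add_apply]
  map_smul' c a := by
    funext u
    simp only [pol_smul, Pi.smul_apply, smul_eq_mul, RingHom.id_apply]
    rw [show X * (C c * pol a * gg s e) = C c * (X * (pol a * gg s e)) by ring, coeff_C_mul]

theorem cart_apply (p r : ℕ) (s : Fin (n + 1) → K) (e : Fin (n + 1) → ℕ) (a : Fin n → K)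
    (u : Fin r) : cart p r s e a u = (X * (pol a * gg s e)).coeff (p * ((u : ℕ) + 1)) := rfl

theorem cart_ext (p : ℕ) {r : ℕ} (hr : r ≤ n) (s : Fin (n + 1) → K) (e : Fin (n + 1) → ℕ)
    (w : Fin r → K) : cart p r s e (ext K n r w) = (hw p r (gg s e)).mulVec w := by
  funext u
  rw [cart_apply, pol_ext hr, Finset.sum_mul, Finset.mul_sum, finsetSum_coeff]
  simp only [Matrix.mulVec, dotProduct, hw, Matrix.of_apply]
  refine Finset.sum_congr rfl fun j _ => ?_
  rw [show X * (C (w j) * X ^ (j : ℕ) * gg s e) = C (w j) * (X ^ ((j : ℕ) + 1) * gg s e) by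
    ring, coeff_C_mul, mul_comm]

theorem cart_ker (p : ℕ) {r : ℕ} (s : Fin (n + 1) → K) (e : Fin (n + 1) → ℕ)
    (hbig : n + ∑ l, e l < p * (r + 1)) (a : Fin n → K) (h : cart p r s e a = 0) :
    a ∈ exact p s e := by
  rw [mem_exact]
  intro k hk
  obtain ⟨u, hu⟩ := hk
  obtain ⟨u, rfl⟩ : ∃ u', u = u' + 1 := ⟨u - 1, by
    rcases Nat.eq_zero_or_pos u with h | h
    · subst h; simp at hu
    · omega⟩
  by_cases hur : u < r
  · have h2 := congrFun h ⟨u, hur⟩
    rw [cart_apply, ← hu, coeff_X_mul] at h2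
    exact h2
  · rcases Nat.eq_zero_or_pos n with hn | hn
    · have h3 : pol a = 0 := by
        subst hn
        simp [pol]
      rw [h3, zero_mul, coeff_zero]
    rw [coeff_eq_zero_of_natDegree_lt]
    have h3 : (pol a * gg s e).natDegree ≤ (n - 1) + ∑ l, e l := by
      refine natDegree_mul_le.trans ?_
      rw [gg_deg]
      exact Nat.add_le_add_right (pol_degree a) _
    have h4 : p * (r + 1) ≤ p * (u + 1) := Nat.mul_le_mul_left p (by omega)
    omega

/-- the Cartier operator is horizontal -/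
theorem cart_nab (p : ℕ) [CharP K p] (hp : 0 < p) (r : ℕ) (δ : Derivation ℤ K K) (m : ℕ)
    (hm : (m : K) ≠ 0) (s : Fin (n + 1) → K) (b e : Fin (n + 1) → ℕ)
    (M : Matrix (Fin n) (Fin n) K) (hM : IsGM δ m s b M) (he : ∀ l, (m : K) * e l = - b l)
    (a : Fin n → K) :
    cart p r s e (nab δ M a) = fun u => δ (cart p r s e a u) := by
  classical
  choose Q hQ using hM
  set g := gg s e with hg
  have hgl : ∀ D : Derivation ℤ K[X] K[X], pr s * D g =
      g * ∑ l, (e l : K[X]) * D (X - C (s l)) * co s l := by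
    intro D
    exact logder D (fun l => X - C (s l)) e Finset.univ
  have hmC : (m : K[X]) = C (m : K) := by simp
  have h1 : (m : K[X]) * pr s * dc δ g = g * ∑ l, C ((b l : K) * δ (s l)) * co s l := by
    rw [mul_assoc, hgl, mul_left_comm, Finset.mul_sum]
    congr 1
    refine Finset.sum_congr rfl fun l _ => ?_
    rw [map_sub, dc_X, dc_C, zero_sub]
    have h2 : (m : K[X]) * (e l : K[X]) = - C (b l : K) := by
      have := congrArg (C : K → K[X]) (he l)
      simpa using this
    calc (m : K[X]) * ((e l : K[X]) * -C (δ (s l)) * co s l)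
        = -((m : K[X]) * (e l : K[X])) * C (δ (s l)) * co s l := by ring
      _ = _ := by
        rw [h2, C_mul]
        ring
  have h2 : (m : K[X]) * pr s * derivative g = - (g * ∑ l, (b l : K[X]) * co s l) := by
    have hd := hgl (derivative'.restrictScalars ℤ)
    have hd2 : pr s * derivative g = g * ∑ l, (e l : K[X]) * co s l := by
      have h3 : ∀ F : K[X], (derivative'.restrictScalars ℤ : Derivation ℤ K[X] K[X]) F =
          derivative F := fun F => rfl
      rw [h3] at hd
      rw [hd]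
      congr 1
      refine Finset.sum_congr rfl fun l _ => ?_
      rw [h3]
      simp
    rw [mul_assoc, hd2, mul_left_comm, Finset.mul_sum, ← mul_neg, ← Finset.sum_neg_distrib]
    congr 1
    refine Finset.sum_congr rfl fun l _ => ?_
    have h2 : (m : K[X]) * (e l : K[X]) = - (b l : K[X]) := by
      have := congrArg (C : K → K[X]) (he l)
      simpa using this
    rw [← mul_assoc, h2]
    ring
  set U : K[X] := ∑ i, C (a i) * (Q i * g) with hU
  have h3 : (m : K[X]) * pr s * (pol (nab δ M a) * g) =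
      (m : K[X]) * pr s * (dc δ (pol a * g) - derivative U) := by
    have h4 : derivative U = ∑ i, C (a i) * (derivative (Q i) * g + Q i * derivative g) := by
      rw [hU, derivative_sum]
      exact Finset.sum_congr rfl fun i _ => by rw [derivative_C_mul, derivative_mul]
    have h4' : dc δ (pol a * g) = dc δ (pol a) * g + pol a * dc δ g := by
      rw [Derivation.leibniz, smul_eq_mul, smul_eq_mul]
      ring
    have h5 : (m : K[X]) * pr s * ∑ i, C (a i) * (derivative (Q i) * g + Q i * derivative g) =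
        g * ∑ i, C (a i) * ((m : K[X]) * pr s * derivative (Q i) -
          Q i * ∑ l, (b l : K[X]) * co s l) := by
      rw [Finset.mul_sum, Finset.mul_sum]
      refine Finset.sum_congr rfl fun i _ => ?_
      linear_combination (C (a i) * Q i) * h2
    have h6 : (m : K[X]) * pr s * (pol a * dc δ g) =
        g * ∑ i, C (a i) * ((m : K[X]) * pr s * (∑ j, C (M i j) * X ^ (j : ℕ) +
          derivative (Q i)) - Q i * ∑ l, (b l : K[X]) * co s l) := by
      calc (m : K[X]) * pr s * (pol a * dc δ g) = pol a * ((m : K[X]) * pr s * dc δ g) := by ring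
        _ = g * ∑ i, C (a i) * (X ^ (i : ℕ) * ∑ l, C ((b l : K) * δ (s l)) * co s l) := by
            rw [h1]
            generalize (∑ l, C ((b l : K) * δ (s l)) * co s l) = Z
            rw [pol, Finset.sum_mul, Finset.mul_sum]
            refine Finset.sum_congr rfl fun i _ => ?_
            ring
        _ = _ := by
            congr 1
            refine Finset.sum_congr rfl fun i _ => ?_
            rw [hQ i]
    rw [h4, h4', pol_nab, mul_sub, mul_add, h6, h5]
    clear hQ h1
    generalize (∑ l, (b l : K[X]) * co s l) = Z at *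
    generalize pr s = Y at *
    have h7 : ∑ i, C (a i) * ((m : K[X]) * Y * (∑ j, C (M i j) * X ^ (j : ℕ) +
          derivative (Q i)) - Q i * Z) =
        (m : K[X]) * Y * ∑ i, C (a i) * ∑ j, C (M i j) * X ^ (j : ℕ) +
        ∑ i, C (a i) * ((m : K[X]) * Y * derivative (Q i) -
          Q i * Z) := by
      rw [Finset.mul_sum, ← Finset.sum_add_distrib]
      refine Finset.sum_congr rfl fun i _ => ?_
      ring
    rw [h7]
    ring
  have h8 : (m : K[X]) * pr s ≠ 0 := by
    rw [hmC]
    exact mul_ne_zero (C_ne_zero.2 hm) (pr_ne s)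
  have h9 := mul_left_cancel₀ h8 h3
  funext u
  rw [cart_apply, cart_apply, ← hg, h9]
  obtain ⟨k, hk⟩ : ∃ k, p * ((u : ℕ) + 1) = k + 1 := ⟨p * ((u : ℕ) + 1) - 1, by
    have : 0 < p * ((u : ℕ) + 1) := Nat.mul_pos hp (by omega)
    omega⟩
  rw [hk, coeff_X_mul, coeff_X_mul, coeff_sub, coeff_dc,
    ex_derivative (p := p) U k ⟨(u : ℕ) + 1, hk.symm⟩, sub_zero]

/-- independence of the derivatives of the branch points -/
theorem indep (s : Fin (n + 1) → K) (hs : s (Fin.last n) ≠ s 0) (T : Finset (Fin (n + 1)))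
    (δ : Fin (n + 1) → Derivation ℤ K K) (lam : Fin (n + 1) → K)
    (hlam : ∀ l, lam l * (s (Fin.last n) - s 0) = s l - s 0)
    (hδ : ∀ i ∈ T, ∀ j ∈ T, δ i (lam j) = if i = j then 1 else 0) :
    LinearIndependent K (Sum.elim (fun (i : T) l => δ i (s l)) ![fun _ => 1, s]) := by
  classical
  rw [Fintype.linearIndependent_iff]
  intro g hg
  have hE : ∀ l, (∑ i : T, g (Sum.inl i) * δ i (s l)) + (g (Sum.inr 0) + g (Sum.inr 1) * s l) =
      0 := by
    intro l
    have h1 := congrFun hg l
    rw [Finset.sum_apply, Fintype.sum_sum_type, Fin.sum_univ_two] at h1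
    simpa using h1
  have hs0 : s (Fin.last n) - s 0 ≠ 0 := sub_ne_zero.2 hs
  have hT : ∀ j : T, g (Sum.inl j) = 0 := by
    intro j
    have h1 : ∀ i : T, δ i (s j) - δ i (s 0) - lam j * (δ i (s (Fin.last n)) - δ i (s 0)) =
        (if (i : Fin (n + 1)) = j then 1 else 0) * (s (Fin.last n) - s 0) := by
      intro i
      have h2 := congrArg (δ i) (hlam j)
      rw [Derivation.leibniz, map_sub, map_sub, hδ i i.2 j j.2] at h2
      simp only [smul_eq_mul] at h2
      linear_combination -h2
    have h2 : ∑ i : T, g (Sum.inl i) * (δ i (s j) - δ i (s 0) -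
        lam j * (δ i (s (Fin.last n)) - δ i (s 0))) = 0 := by
      have h3 := hE j
      have h4 := hE 0
      have h5 := hE (Fin.last n)
      have h6 : ∑ i : T, g (Sum.inl i) * (δ i (s j) - δ i (s 0) -
          lam j * (δ i (s (Fin.last n)) - δ i (s 0))) =
          (∑ i : T, g (Sum.inl i) * δ i (s j)) - (∑ i : T, g (Sum.inl i) * δ i (s 0)) -
          lam j * ((∑ i : T, g (Sum.inl i) * δ i (s (Fin.last n))) -
            (∑ i : T, g (Sum.inl i) * δ i (s 0))) := by
        rw [← Finset.sum_sub_distrib, ← Finset.sum_sub_distrib, Finset.mul_sum,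
          ← Finset.sum_sub_distrib]
        exact Finset.sum_congr rfl fun i _ => by ring
      rw [h6]
      linear_combination h3 - h4 - lam j * (h5 - h4) + g (Sum.inr 1) * hlam j
    rw [Finset.sum_congr rfl fun i _ => by rw [h1 i], Finset.sum_eq_single j] at h2
    · rw [if_pos rfl, one_mul] at h2
      exact (mul_eq_zero.1 h2).resolve_right hs0
    · intro i _ hi
      rw [if_neg (fun h => hi (Subtype.ext h)), zero_mul, mul_zero]
    · intro h
      exact absurd (Finset.mem_univ _) h
  have hE' : ∀ l, g (Sum.inr 0) + g (Sum.inr 1) * s l = 0 := by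
    intro l
    have := hE l
    rwa [Finset.sum_eq_zero (fun i _ => by rw [hT i, zero_mul]), zero_add] at this
  have h1 : g (Sum.inr 1) = 0 := by
    have h2 : g (Sum.inr 1) * (s (Fin.last n) - s 0) = 0 := by
      linear_combination hE' (Fin.last n) - hE' 0
    exact (mul_eq_zero.1 h2).resolve_right hs0
  have h0 : g (Sum.inr 0) = 0 := by
    have := hE' 0
    rwa [h1, zero_mul, add_zero] at this
  rintro (i | i)
  · exact hT i
  · fin_cases i
    · exact h0
    · exact h1

/-- the forms killed by `R` after the Cartier operator -/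
noncomputable def WW (p r : ℕ) (s : Fin (n + 1) → K) (e : Fin (n + 1) → ℕ)
    (R : Matrix (Fin r) (Fin r) K) : Submodule K (Fin n → K) :=
  LinearMap.ker (R.mulVecLin ∘ₗ cart p r s e)

theorem mem_WW {p r : ℕ} {s : Fin (n + 1) → K} {e : Fin (n + 1) → ℕ}
    {R : Matrix (Fin r) (Fin r) K} {a : Fin n → K} :
    a ∈ WW p r s e R ↔ R.mulVec (cart p r s e a) = 0 := Iff.rfl

theorem WW_dim (p r : ℕ) (s : Fin (n + 1) → K) (e : Fin (n + 1) → ℕ)
    (hbig : n + ∑ l, e l < p * (r + 1)) (R : Matrix (Fin r) (Fin r) K) :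
    Module.finrank K (WW p r s e R) + R.rank ≤ r + Module.finrank K (exact p s e) := by
  let φ : WW p r s e R →ₗ[K] LinearMap.ker R.mulVecLin :=
    LinearMap.codRestrict _ ((cart p r s e).domRestrict (WW p r s e R)) (fun a => a.2)
  have h1 := LinearMap.finrank_range_add_finrank_ker φ
  have h2 : Module.finrank K (LinearMap.range φ) ≤
      Module.finrank K (LinearMap.ker R.mulVecLin) := Submodule.finrank_le _
  let ψ : LinearMap.ker φ →ₗ[K] exact p s e :=
    LinearMap.codRestrict _ ((WW p r s e R).subtype ∘ₗ (LinearMap.ker φ).subtype) (by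
      rintro ⟨a, ha⟩
      rw [LinearMap.mem_ker] at ha
      exact cart_ker p s e hbig a (congrArg Subtype.val ha))
  have hψ : Function.Injective ψ := by
    intro x y h
    have h1 : ((ψ x : exact p s e) : Fin n → K) = (ψ y : exact p s e) := by rw [h]
    apply Subtype.ext
    apply Subtype.ext
    exact h1
  have h3 := LinearMap.finrank_le_finrank_of_injective hψ
  have h4 := finrank_ker R
  omega

theorem WW_flat (p : ℕ) [Fact p.Prime] [CharP K p] (r : ℕ) (δ : Derivation ℤ K K) (m : ℕ)
    (hm : (m : K) ≠ 0) (s : Fin (n + 1) → K) (b e : Fin (n + 1) → ℕ)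
    (M : Matrix (Fin n) (Fin n) K) (hM : IsGM δ m s b M) (he : ∀ l, (m : K) * e l = - b l)
    (R : Matrix (Fin r) (Fin r) K) (a : Fin n → K)
    (ha : a ∈ WW p r s e (R.map fun x => x ^ p)) :
    nab δ M a ∈ WW p r s e (R.map fun x => x ^ p) := by
  rw [mem_WW] at ha ⊢
  rw [cart_nab p (Fact.out : p.Prime).pos r δ m hm s b e M hM he a]
  funext u
  have h1 := congrArg δ (congrFun ha u)
  simp only [Matrix.mulVec, dotProduct, Matrix.map_apply, Pi.zero_apply, map_zero, map_sum,
    Derivation.leibniz, Derivation.leibniz_pow, smul_eq_mul, nsmul_eq_mul,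
    CharP.cast_eq_zero, zero_mul, mul_zero, add_zero] at h1 ⊢
  exact h1

/-- the kernel of the iterate -/
theorem rank_WW (p : ℕ) {r : ℕ} (hr : r ≤ n) (s : Fin (n + 1) → K) (e : Fin (n + 1) → ℕ)
    (R : Matrix (Fin r) (Fin r) K) :
    r ≤ (R * hw p r (gg s e)).rank + Module.finrank K ↥(WW p r s e R ⊓ fil K n r) := by
  classical
  set H := R * hw p r (gg s e) with hH
  let φ : LinearMap.ker H.mulVecLin →ₗ[K] ↥(WW p r s e R ⊓ fil K n r) :=
    LinearMap.codRestrict _ ((ext K n r).domRestrict (LinearMap.ker H.mulVecLin)) (by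
      rintro ⟨w, hw1⟩
      rw [LinearMap.mem_ker, Matrix.mulVecLin_apply] at hw1
      refine ⟨?_, fun i hi => ext_ge w i hi⟩
      change ext K n r w ∈ WW p r s e R
      rw [mem_WW, cart_ext p hr, Matrix.mulVec_mulVec]
      exact hw1)
  have hinj : Function.Injective φ := by
    intro w v h
    apply Subtype.ext
    exact ext_inj hr (congrArg Subtype.val h)
  have h1 := LinearMap.finrank_le_finrank_of_injective hinj
  have h2 := finrank_ker H
  omega

/-- **One step.** The rank drops by not too much. -/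
theorem rank_step (p : ℕ) [hpp : Fact p.Prime] [CharP K p] (m : ℕ) (hm : (m : K) ≠ 0) (r : ℕ)
    (hr : r ≤ n) (s : Fin (n + 1) → K) (hs : Function.Injective s) (b e : Fin (n + 1) → ℕ)
    (hb : ∀ l, b l < m) (he : ∀ l, m * e l = b l * (p - 1))
    (hr1 : m * r ≤ ∑ l, b l) (hr2 : ∑ l, b l < m * (r + 1)) (hpn : m * n < p)
    (T : Finset (Fin (n + 1)))
    (δ : Fin (n + 1) → Derivation ℤ K K) (lam : Fin (n + 1) → K)
    (hlast : s (Fin.last n) ≠ s 0)
    (hlam : ∀ l, lam l * (s (Fin.last n) - s 0) = s l - s 0)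
    (hδ : ∀ i ∈ T, ∀ j ∈ T, δ i (lam j) = if i = j then 1 else 0) (i : ℕ) :
    (it p (hw p r (gg s e)) (i + 1)).rank = (it p (hw p r (gg s e)) i).rank ∨
    r + (it p (hw p r (gg s e)) i).rank + T.card ≤
      n + 2 * (it p (hw p r (gg s e)) (i + 1)).rank := by
  classical
  have hp2 := hpp.out.two_le
  have hm0 : 0 < m := lt_of_le_of_lt (Nat.zero_le _) (hb 0)
  have hel : ∀ l, e l + 1 ≤ p := by
    intro l
    have h1 : m * e l < m * (p - 1) := by
      rw [he l]
      exact Nat.mul_lt_mul_of_pos_right (hb l) (by omega)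
    have := Nat.lt_of_mul_lt_mul_left h1
    omega
  have hsum : m * ∑ l, e l = (∑ l, b l) * (p - 1) := by
    rw [Finset.mul_sum, Finset.sum_mul]
    exact Finset.sum_congr rfl fun l _ => he l
  -- the two inequalities
  have hdim : p * r ≤ n + ∑ l, e l := by
    have h1 : m * (r * (p - 1)) ≤ m * ∑ l, e l := by
      rw [hsum, ← mul_assoc]
      exact Nat.mul_le_mul_right _ hr1
    have h2 := Nat.le_of_mul_le_mul_left h1 hm0
    obtain ⟨q, rfl⟩ : ∃ q, p = q + 1 := ⟨p - 1, by omega⟩
    rw [Nat.add_sub_cancel] at h2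
    nlinarith
  have hbig : n + ∑ l, e l < p * (r + 1) := by
    have h1 : (∑ l, b l) * (p - 1) + (p - 1) ≤ m * (r + 1) * (p - 1) := by
      have h2 : (∑ l, b l + 1) * (p - 1) ≤ m * (r + 1) * (p - 1) :=
        Nat.mul_le_mul_right _ hr2
      rwa [add_mul, one_mul] at h2
    have h2 : m * (n + ∑ l, e l) < m * (p * (r + 1)) := by
      rw [mul_add, hsum]
      obtain ⟨q, rfl⟩ : ∃ q, p = q + 1 := ⟨p - 1, by omega⟩
      rw [Nat.add_sub_cancel] at h1 ⊢
      nlinarith
    exact Nat.lt_of_mul_lt_mul_left h2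
  have heK : ∀ l, (m : K) * e l = - b l := by
    intro l
    have h1 := he l
    obtain ⟨q, rfl⟩ : ∃ q, p = q + 1 := ⟨p - 1, by omega⟩
    rw [Nat.add_sub_cancel] at h1
    have h2 : ((m * e l : ℕ) : K) = ((b l * q : ℕ) : K) := by rw [h1]
    have h3 : ((q : K) + 1) = 0 := by
      have := CharP.cast_eq_zero K (q + 1)
      exact_mod_cast this
    push_cast at h2
    rw [h2, eq_neg_of_add_eq_zero_left h3]
    ring
  set H := hw p r (gg s e) with hH
  set R : Matrix (Fin r) (Fin r) K := (it p H i).map (fun x => x ^ p) with hR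
  have hRr : R.rank = (it p H i).rank := rank_pow p _
  have hH1 : it p H (i + 1) = R * H := it_succ p H i
  set W := WW p r s e R with hW
  set F := fil K n r with hF
  have hWd0 := exact_dim p r hr s hs e hel hdim
  have hWd := WW_dim p r s e hbig R
  rw [← hW] at hWd
  have hFd := finrank_fil (K := K) hr
  rw [← hF] at hFd
  have hrk := rank_WW p hr s e R
  rw [← hW, ← hF, ← hH, ← hH1] at hrk
  have hsi := Submodule.finrank_sup_add_finrank_inf_eq W F
  have hind := indep s hlast T δ lam hlam hδ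
  have hle : (it p H (i + 1)).rank ≤ (it p H i).rank := by
    rw [hH1, ← hRr]
    exact Matrix.rank_mul_le_left _ _
  have hRle : R.rank ≤ r := by
    have := finrank_ker R
    omega
  rcases Nat.lt_or_ge (it p H (i + 1)).rank (it p H i).rank with hlt | hge
  swap
  · exact Or.inl (le_antisymm hle hge)
  right
  have hpos : 0 < Module.finrank K ↥(W ⊓ F) := by omega
  -- `r` is positive
  have hr0 : 1 ≤ r := by
    rcases Nat.eq_zero_or_pos r with h | h
    · have h1 := Submodule.finrank_mono (inf_le_right : W ⊓ F ≤ F)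
      omega
    · exact h
  -- the functionals
  set Ψ := (W ⊔ F).dualAnnihilator with hΨ
  have hΨd := Subspace.finrank_add_finrank_dualAnnihilator_eq (W ⊔ F)
  rw [Module.finrank_fintype_fun_eq_card, Fintype.card_fin, ← hΨ] at hΨd
  have hB : ∀ q, r + 1 ≤ q → q ≤ n → ((∑ l, b l : ℕ) : K) ≠ m * q := by
    intro q hq1 hq2 h
    have h1 : ∑ l, b l < m * q := lt_of_lt_of_le hr2 (Nat.mul_le_mul_left m hq1)
    have h2 : ((m * q - ∑ l, b l : ℕ) : K) = 0 := by
      rw [Nat.cast_sub h1.le, h]
      push_cast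
      ring
    rw [CharP.cast_eq_zero_iff K p] at h2
    have h3 := Nat.le_of_dvd (by omega) h2
    have h4 : m * q ≤ m * n := Nat.mul_le_mul_left m hq2
    omega
  have hFV : ∀ ψ ∈ Ψ, FV r ψ := by
    intro ψ hψ a ha
    exact (Submodule.mem_dualAnnihilator ψ).1 hψ a (Submodule.mem_sup_right ha)
  have hinj : Function.Injective ((tau m s b).domRestrict Ψ) := by
    rw [injective_iff_map_eq_zero]
    rintro ⟨ψ, hψ⟩ h
    exact Subtype.ext (tau_inj m s b hs hB hm (hFV ψ hψ) h)
  have hTd := LinearMap.finrank_range_of_inj hinj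
  have key := core r s hs (W ⊓ F) (fun a ha => ha.2)
    (LinearMap.range ((tau m s b).domRestrict Ψ)) (by
      rintro v ⟨⟨ψ, hψ⟩, rfl⟩ q hq
      exact tau_mom m s b hs hr0 hr (hFV ψ hψ) q hq) hpos (by omega)
    (fun (i : T) l => δ i (s l)) hind (by
      rintro v ⟨⟨ψ, hψ⟩, rfl⟩ a ha i
      obtain ⟨M, hM, hM2⟩ := exists_gm m s b hs (r := r) hm (δ i)
      have h1 := hM2 ψ (hFV ψ hψ) a ha.2
      have h2 : nab (δ i) M a ∈ W := WW_flat p r (δ i) m hm s b e M hM heK _ a ha.1
      have h3 := (Submodule.mem_dualAnnihilator ψ).1 hψ _ (Submodule.mem_sup_left h2)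
      rw [h3] at h1
      exact neg_eq_zero.1 h1.symm)
  rw [Fintype.card_coe] at key
  omega

/-- **The ranks of the iterates of the Hasse–Witt matrix in characteristic `p`.** -/
theorem rank_p (p : ℕ) [hpp : Fact p.Prime] [CharP K p] (m : ℕ) (hm : (m : K) ≠ 0) (r : ℕ)
    (hr : r ≤ n) (s : Fin (n + 1) → K) (hs : Function.Injective s) (b e : Fin (n + 1) → ℕ)
    (hb : ∀ l, b l < m) (he : ∀ l, m * e l = b l * (p - 1))
    (hr1 : m * r ≤ ∑ l, b l) (hr2 : ∑ l, b l < m * (r + 1)) (hpn : m * n < p)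
    (hn : n ≠ 0) (T : Finset (Fin (n + 1)))
    (δ : Fin (n + 1) → Derivation ℤ K K) (lam : Fin (n + 1) → K)
    (hlam : ∀ l, lam l * (s (Fin.last n) - s 0) = s l - s 0)
    (hδ : ∀ i ∈ T, ∀ j ∈ T, δ i (lam j) = if i = j then 1 else 0) (i : ℕ) :
    2 ^ i * r + (2 ^ i - 1) * T.card ≤
      2 ^ i * (it p (hw p r (gg s e)) i).rank + (2 ^ i - 1) * n := by
  have hlast : s (Fin.last n) ≠ s 0 := fun h => by
    have h1 := hs h
    have h2 := congrArg (fun x : Fin (n + 1) => (x : ℕ)) h1
    simp only [Fin.val_last, Fin.val_zero] at h2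
    exact hn h2
  have hTn : T.card ≤ n := by
    have h1 := (indep s hlast T δ lam hlam hδ).fintype_card_le_finrank
    rw [Fintype.card_sum, Fintype.card_coe, Fintype.card_fin,
      Module.finrank_fintype_fun_eq_card, Fintype.card_fin] at h1
    omega
  induction i with
  | zero =>
    rw [it_zero, Matrix.rank_one, Fintype.card_fin]
    simp
  | succ i ih =>
    have hstep := rank_step p m hm r hr s hs b e hb he hr1 hr2 hpn T δ lam hlast hlam hδ i
    obtain ⟨q, hq⟩ : ∃ q, 2 ^ i = q + 1 := ⟨2 ^ i - 1, by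
      have : 0 < 2 ^ i := by positivity
      omega⟩
    rw [pow_succ, hq]
    rw [hq] at ih
    have e1 : q + 1 - 1 = q := rfl
    have e2 : (q + 1) * 2 - 1 = 2 * q + 1 := by omega
    rw [e1] at ih
    rw [e2]
    rcases hstep with h | h
    · rw [h]
      nlinarith
    · nlinarith

end Pool.Agent.V8H79.KS
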