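import Pool.Agent.V8H79.KS.PC
import Pool.Agent.V8H79.BM.PK
import Pool.Agent.H135R2.VS.Der

/-!
# Residue fields, minors, derivations of a field of finite transcendence degree
-/

set_option autoImplicit false

open Polynomial

namespace Pool.Agent.V8H79.KS

open Pool.Agent.V8H79.BM

theorem exists_fder' {R K : Type*} [CommRing R] [IsDomain R] [Field K] [Algebra R K]
    [IsFractionRing R K] {τ : Type*} (D : τ → R →+ R)
    (hD : ∀ i x y, D i (x * y) = x * D i y + y * D i x) :
    ∃ D' : τ → Derivation ℤ K K, ∀ i (x : R),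
      D' i (algebraMap R K x) = algebraMap R K (D i x) := by
  choose D' hD' using fun i => exists_fder (K := K) (D i) (hD i)
  exact ⟨D', hD'⟩

/-- the residue field of a prime stable under a family of derivations -/
theorem exists_res' {B : Type} [CommRing B] {τ : Type} (d : τ → B →+ B)
    (hd : ∀ i x y, d i (x * y) = x * d i y + y * d i x) (Q : Ideal B) (hQp : Q.IsPrime)
    (hQ : ∀ i, ∀ x ∈ Q, d i x ∈ Q) :
    ∃ (K : Type) (_ : Field K) (δK : τ → Derivation ℤ K K) (φ : B →+* K),
      (∀ i x, δK i (φ x) = φ (d i x)) ∧ ∀ x, φ x = 0 ↔ x ∈ Q := by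
  choose D' h1 h2 using fun i => exists_qder (d i) (hd i) Q (hQ i)
  obtain ⟨D, h3⟩ := exists_fder' (K := FractionRing (B ⧸ Q)) D' h1
  refine ⟨FractionRing (B ⧸ Q), inferInstance, D,
    (algebraMap (B ⧸ Q) (FractionRing (B ⧸ Q))).comp (Ideal.Quotient.mk Q), ?_, ?_⟩
  · intro i x
    rw [RingHom.comp_apply, h3, h2]
    rfl
  · intro x
    rw [RingHom.comp_apply, map_eq_zero_iff _ (IsFractionRing.injective _ _),
      Ideal.Quotient.eq_zero_iff_mem]

theorem hw_map {R S : Type*} [CommRing R] [CommRing S] (p d : ℕ) (φ : R →+* S) (F : R[X]) :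
    (hw p d F).map φ = hw p d (F.map φ) := by
  ext i j
  change φ ((X ^ ((j : ℕ) + 1) * F).coeff (p * ((i : ℕ) + 1))) =
    (X ^ ((j : ℕ) + 1) * (F.map φ)).coeff (p * ((i : ℕ) + 1))
  rw [← map_X φ, ← Polynomial.map_pow, ← Polynomial.map_mul, coeff_map]

end Pool.Agent.V8H79.KS
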