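import Pool.Agent.V8H79.KS.PD

/-!
# The rank of the Hasse–Witt matrices at closed points
-/

set_option autoImplicit false

open Polynomial

namespace Pool.Agent.V8H79.KS

open Pool.Agent.V8H79.BM

theorem main {k ι : Type} [Field k] [CharZero k] [Fintype ι]
    (m n : ι → ℕ) (s : ∀ c, Fin (n c + 1) → k) (hs : ∀ c, Function.Injective (s c))
    (a : ∀ c, Fin (n c + 1) → ℕ) (ha : ∀ c l, a c l < m c)
    (T : ∀ c, Finset (Fin (n c + 1)))
    (hT : ∀ c, AlgebraicIndependent ℚ fun l : T c =>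
      (s c l - s c 0) / (s c (Fin.last (n c)) - s c 0))
    (A : Subalgebra ℤ k) (hA : A.FG) (F : ι → ℕ → A[X])
    (hF : ∀ c e, (F c e).map (algebraMap A k) = ∏ l with a c l = e, (X - C (s c l)))
    (g : A) (hg : g ≠ 0) :
    ∃ N : ℕ, ∀ p : ℕ, N ≤ p → p.Prime → (∀ c, m c ∣ p - 1) → ∃ M : Ideal A, M.IsMaximal ∧
      (p : A) ∈ M ∧ g ∉ M ∧ ∀ c, ∀ j, 1 ≤ j → j < m c → ∀ i,
        2 ^ i * ((∑ l, j * a c l % m c) / m c) + (2 ^ i - 1) * (T c).card ≤
          2 ^ i * (it p (hw p ((∑ l, j * a c l % m c) / m c) (bk p (m c) j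
            (fun e => (F c e).map (Ideal.Quotient.mk M)))) i).rank + (2 ^ i - 1) * n c := by
  classical
  have hm0 : ∀ c, 0 < m c := fun c => lt_of_le_of_lt (Nat.zero_le _) (ha c 0)
  set r : ι → ℕ → ℕ := fun c j => (∑ l, j * a c l % m c) / m c with hr
  have hrn : ∀ c j, r c j ≤ n c := by
    intro c j
    have h1 : ∑ l, j * a c l % m c < m c * (n c + 1) := by
      have h2 : ∑ l : Fin (n c + 1), j * a c l % m c < ∑ _l : Fin (n c + 1), m c :=
        Finset.sum_lt_sum_of_nonempty ⟨0, Finset.mem_univ _⟩ fun l _ => Nat.mod_lt _ (hm0 c)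
      rw [Finset.sum_const, Finset.card_univ, Fintype.card_fin, smul_eq_mul, mul_comm] at h2
      exact h2
    have h3 : r c j < n c + 1 := Nat.div_lt_of_lt_mul h1
    omega
  -- the field generated by the data
  obtain ⟨TA, hTA⟩ := hA
  set Y0 : Set k := (TA : Set k) ∪ ⋃ c, Set.range (s c) with hY0
  have hY0fin : Y0.Finite :=
    TA.finite_toSet.union (Set.finite_iUnion fun c => Set.finite_range _)
  set k0 : IntermediateField ℚ k := IntermediateField.adjoin ℚ Y0 with hk0
  have hess : Algebra.EssFiniteType ℚ k0 :=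
    IntermediateField.essFiniteType_iff.2 (IntermediateField.fg_adjoin_of_finite hY0fin)
  have hY0k : ∀ y ∈ Y0, y ∈ k0 := fun y hy => IntermediateField.subset_adjoin ℚ Y0 hy
  let s0 : ∀ c, Fin (n c + 1) → k0 := fun c l =>
    ⟨s c l, hY0k _ (Or.inr (Set.mem_iUnion.2 ⟨c, l, rfl⟩))⟩
  let lam : ∀ c, Fin (n c + 1) → k0 := fun c l =>
    (s0 c l - s0 c 0) / (s0 c (Fin.last (n c)) - s0 c 0)
  have hlamT : ∀ c, AlgebraicIndependent ℚ fun l : T c => lam c l := by
    intro c
    refine AlgebraicIndependent.of_comp k0.val ?_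
    exact hT c
  have hTn : ∀ c, (T c).card ≤ n c := by
    intro c
    have h0 : (0 : Fin (n c + 1)) ∉ T c := by
      intro h
      have h1 : lam c 0 = 0 := by simp only [lam, sub_self, zero_div]
      exact (hlamT c).ne_zero ⟨0, h⟩ h1
    have h1 : (T c).card < Fintype.card (Fin (n c + 1)) :=
      Finset.card_lt_univ_of_notMem h0
    rw [Fintype.card_fin] at h1
    omega
  -- the derivations
  have hder : ∀ t : (c : ι) × Fin (n c + 1), ∃ D : Derivation ℤ k0 k0, ∀ l ∈ T t.1,
      D (lam t.1 l) = if t.2 = l then 1 else 0 := by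
    rintro ⟨c, i⟩
    obtain ⟨D, hD⟩ := Pool.Agent.H135R2.VS.exists_der (K := ℚ) (hlamT c)
      (fun l => if i = l then 1 else 0)
    refine ⟨D.restrictScalars ℤ, fun l hl => ?_⟩
    exact hD ⟨l, hl⟩
  choose δ hδ using hder
  -- the ring
  set T0 : Set k0 := {y | (y : k) ∈ TA} with hT0
  have hT0fin : T0.Finite :=
    TA.finite_toSet.preimage (f := fun y : k0 => (y : k)) Subtype.val_injective.injOn
  set Y : Set k0 := T0 ∪ (⋃ c, Set.range (s0 c)) ∪ (⋃ c, Set.range (lam c)) with hY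
  have hYfin : Y.Finite :=
    (hT0fin.union (Set.finite_iUnion fun c => Set.finite_range _)).union
      (Set.finite_iUnion fun c => Set.finite_range _)
  obtain ⟨B, hYB, hδB, N0, Q, hQ, hQfin⟩ := exists_ring δ Y hYfin
  let jB : B →+* k := (algebraMap k0 k).comp (algebraMap B k0)
  have hjB : ∀ y : B, jB y = ((y : k0) : k) := fun _ => rfl
  have hjinj : Function.Injective jB := fun x y h =>
    Subtype.ext (Subtype.ext h)
  let jA : B →ₐ[ℤ] k := jB.toIntAlgHom
  have hjAinj : Function.Injective jA := hjinj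
  have hAle : A ≤ jA.range := by
    rw [← hTA]
    refine Algebra.adjoin_le fun y hy => ?_
    have hyk : y ∈ k0 := hY0k y (Or.inl hy)
    exact ⟨⟨⟨y, hyk⟩, hYB (Or.inl (Or.inl hy))⟩, rfl⟩
  let eB : B ≃ₐ[ℤ] jA.range := AlgEquiv.ofInjective jA hjAinj
  let iA : A →+* B := (eB.symm : jA.range →+* B).comp (Subalgebra.inclusion hAle).toRingHom
  have hiA : ∀ x : A, jB (iA x) = (x : k) := by
    intro x
    have h1 : eB (iA x) = Subalgebra.inclusion hAle x := AlgEquiv.apply_symm_apply eB _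
    exact congrArg Subtype.val h1
  let sB : ∀ c, Fin (n c + 1) → B := fun c l =>
    ⟨s0 c l, hYB (Or.inl (Or.inr (Set.mem_iUnion.2 ⟨c, l, rfl⟩)))⟩
  let lB : ∀ c, Fin (n c + 1) → B := fun c l =>
    ⟨lam c l, hYB (Or.inr (Set.mem_iUnion.2 ⟨c, l, rfl⟩))⟩
  have hsB : ∀ c l, jB (sB c l) = s c l := fun _ _ => rfl
  have hsBinj : ∀ c, Function.Injective (sB c) := by
    intro c i j h
    have := congrArg jB h
    rw [hsB, hsB] at this
    exact hs c this
  let d : ∀ _ : (c : ι) × Fin (n c + 1), B →+ B := fun t =>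
    { toFun := fun y => ⟨δ t y, hδB t y y.2⟩
      map_zero' := Subtype.ext (map_zero (δ t))
      map_add' := fun x y => Subtype.ext (map_add (δ t) _ _) }
  have hd : ∀ t (y : B), ((d t y : B) : k0) = δ t y := fun t y => rfl
  have hdl : ∀ t (x y : B), d t (x * y) = x * d t y + y * d t x := by
    intro t x y
    apply Subtype.ext
    rw [hd]
    push_cast
    rw [Derivation.leibniz, hd, hd]
    rfl
  -- the bad primes
  let dd : ι → B := fun c =>
    ∏ x ∈ (Finset.univ : Finset (Fin (n c + 1))).offDiag, (sB c x.1 - sB c x.2)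
  have hdd0 : ∀ c, dd c ≠ 0 := by
    intro c
    refine Finset.prod_ne_zero_iff.2 fun x hx => ?_
    rw [Finset.mem_offDiag] at hx
    exact sub_ne_zero.2 fun h => hx.2.2 (hsBinj c h)
  have hg0 : iA g ≠ 0 := by
    intro h
    have := hiA g
    rw [h, map_zero] at this
    exact hg (Subtype.ext this.symm)
  let bad : Set ℕ := {p : ℕ | p.Prime ∧ N0 ≤ p ∧ iA g ∈ Q p} ∪
    ⋃ c, {p : ℕ | p.Prime ∧ N0 ≤ p ∧ dd c ∈ Q p}
  have hbad : bad.Finite :=
    (hQfin _ hg0).union (Set.finite_iUnion fun c => hQfin _ (hdd0 c))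
  obtain ⟨N1, hN1⟩ := hbad.bddAbove
  refine ⟨max N0 (max (N1 + 1) (∑ c, m c * n c + 1)), fun p hp hpp hdvd => ?_⟩
  have hpN0 : N0 ≤ p := (le_max_left _ _).trans hp
  have hpN1 : N1 + 1 ≤ p := (le_max_left _ _).trans ((le_max_right _ _).trans hp)
  have hpN2 : ∑ c, m c * n c + 1 ≤ p := (le_max_right _ _).trans ((le_max_right _ _).trans hp)
  have hpmn : ∀ c, m c * n c < p := by
    intro c
    have := Finset.single_le_sum (f := fun c => m c * n c) (fun _ _ => Nat.zero_le _)
      (Finset.mem_univ c)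
    exact lt_of_le_of_lt this (by omega)
  have hpbad : p ∉ bad := fun h => by
    have h1 : p ≤ N1 := hN1 h
    omega
  obtain ⟨hQp, hpQ, hQd⟩ := hQ p hpN0 hpp
  obtain ⟨K, hK, δK, φ, hφ1, hφ2⟩ := exists_res' d hdl (Q p) hQp
    (fun t x hx => hQd t (d t) (hd t) x hx)
  have hK0 : ((p : ℕ) : K) = 0 := by
    have := (hφ2 (p : B)).2 hpQ
    rwa [map_natCast] at this
  have hchar : CharP K p := by
    obtain ⟨q, hq⟩ := CharP.exists K
    have h1 : q ∣ p := (CharP.cast_eq_zero_iff K q p).1 hK0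
    rcases (Nat.dvd_prime hpp).1 h1 with h2 | h2
    · subst h2
      exact absurd (CharP.char_ne_one K 1 rfl) (by simp)
    · rwa [← h2]
  have hp2 := hpp.two_le
  have hmK : ∀ c, (m c : K) ≠ 0 := by
    intro c h0
    have h1 := (CharP.cast_eq_zero_iff K p (m c)).1 h0
    have h2 := Nat.le_of_dvd (hm0 c) h1
    have h3 := Nat.le_of_dvd (by omega) (hdvd c)
    omega
  have hφs : ∀ c, Function.Injective fun l => φ (sB c l) := by
    intro c i j hij
    by_contra hne
    apply hpbad
    refine Or.inr (Set.mem_iUnion.2 ⟨c, hpp, hpN0, ?_⟩)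
    have h1 : φ (sB c i - sB c j) = 0 := by rw [map_sub]; exact sub_eq_zero.2 hij
    exact (Q p).mem_of_dvd (Finset.dvd_prod_of_mem
      (fun x : Fin (n c + 1) × Fin (n c + 1) => sB c x.1 - sB c x.2)
      (show (i, j) ∈ (Finset.univ : Finset (Fin (n c + 1))).offDiag by
        rw [Finset.mem_offDiag]; exact ⟨Finset.mem_univ _, Finset.mem_univ _, hne⟩))
      ((hφ2 _).1 h1)
  -- the homomorphism
  let θ : A →+* K := φ.comp iA
  have hθ : ∀ x, θ x = 0 ↔ iA x ∈ Q p := fun x => hφ2 _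
  have hFB : ∀ c e, (F c e).map iA = ∏ l with a c l = e, (X - C (sB c l)) := by
    intro c e
    apply map_injective jB hjinj
    rw [Polynomial.map_map]
    have e1 : jB.comp iA = algebraMap A k := RingHom.ext hiA
    rw [e1, hF]
    simp [Polynomial.map_prod, hsB]
  have hFK : ∀ c e, (F c e).map θ = ∏ l with a c l = e, (X - C (φ (sB c l))) := by
    intro c e
    rw [show θ = φ.comp iA from rfl, ← Polynomial.map_map, hFB]
    simp [Polynomial.map_prod]
  have hHK : ∀ c j, (hw p (r c j) (bk p (m c) j (F c))).map θ =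
      hw p (r c j) (gg (fun l => φ (sB c l)) fun l => (j * a c l % m c) * ((p - 1) / m c)) := by
    intro c j
    rw [hw_map, bk_map]
    simp_rw [hFK]
    rw [bk_prod _ _ _ _ _ (ha c)]
    rfl
  -- the rank over `K`
  have hfp : Fact p.Prime := ⟨hpp⟩
  have hrank : ∀ c j i, 2 ^ i * r c j + (2 ^ i - 1) * (T c).card ≤
      2 ^ i * ((it p (hw p (r c j) (bk p (m c) j (F c))) i).map θ).rank +
        (2 ^ i - 1) * n c := by
    intro c j i
    rw [it_map, hHK]
    rcases Nat.eq_zero_or_pos (n c) with h0 | h0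
    · have h1 : T c = ∅ := by
        rw [Finset.eq_empty_iff_forall_notMem]
        intro l hl
        have h2 : lam c l = 0 := by
          have h3 : Fin.last (n c) = 0 := by
            apply Fin.ext
            rw [Fin.val_last, Fin.val_zero]
            exact h0
          simp only [lam]
          rw [h3, sub_self, div_zero]
        exact (hlamT c).ne_zero ⟨l, hl⟩ h2
      have h2 := hrn c j
      have h3 : r c j = 0 := by omega
      rw [h1, Finset.card_empty, h3]
      simp
    · have hlast : Fin.last (n c) ≠ 0 := by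
        intro h
        have h2 := congrArg (fun x : Fin (n c + 1) => (x : ℕ)) h
        simp only [Fin.val_last, Fin.val_zero] at h2
        omega
      refine rank_p p (m c) (hmK c) (r c j) (hrn c j) _ (hφs c)
        (fun l => j * a c l % m c) _ (fun l => Nat.mod_lt _ (hm0 c)) ?_ ?_ ?_ (hpmn c) (by omega)
        (T c) (fun i => δK ⟨c, i⟩) (fun l => φ (lB c l)) ?_ ?_ i
      · intro l
        rw [Nat.mul_left_comm, Nat.mul_div_cancel' (hdvd c)]
      · exact Nat.mul_div_le _ _
      · exact Nat.lt_mul_div_succ _ (hm0 _)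
      · intro l
        have h1 : lB c l * (sB c (Fin.last (n c)) - sB c 0) = sB c l - sB c 0 := by
          apply Subtype.ext
          change lam c l * (s0 c (Fin.last (n c)) - s0 c 0) = s0 c l - s0 c 0
          refine div_mul_cancel₀ _ (sub_ne_zero.2 fun h => hlast ?_)
          exact hs c (congrArg Subtype.val h)
        have h2 := congrArg φ h1
        rwa [map_mul, map_sub, map_sub] at h2
      · intro i hi l hl
        rw [hφ1]
        have h1 : d ⟨c, i⟩ (lB c l) = if i = l then 1 else 0 := by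
          apply Subtype.ext
          rw [hd]
          change δ ⟨c, i⟩ (lam c l) = _
          rw [hδ ⟨c, i⟩ l hl]
          split_ifs <;> rfl
        rw [h1]
        split_ifs
        · exact map_one φ
        · exact map_zero φ
  choose D hD1 hD2 using fun c j i =>
    exists_open (it p (hw p (r c j) (bk p (m c) j (F c))) i) θ
  let M0 : Ideal A := (Q p).comap iA
  have hM0 : M0.IsPrime := Ideal.comap_isPrime iA (Q p)
  have hpM0 : (p : A) ∈ M0 := by
    change iA (p : A) ∈ Q p
    rwa [map_natCast]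
  have hgM0 : g ∉ M0 := fun h => hpbad (Or.inl ⟨hpp, hpN0, h⟩)
  have hprod : g * ∏ c, ∏ j ∈ Finset.Ico 1 (m c), ∏ i ∈ Finset.range (r c j + 1), D c j i
      ∉ M0 := by
    intro hm
    rcases hM0.mem_or_mem hm with h1 | h1
    · exact hgM0 h1
    · obtain ⟨c, -, hc⟩ := (hM0.prod_mem_iff).1 h1
      obtain ⟨j, hj, hj'⟩ := (hM0.prod_mem_iff).1 hc
      obtain ⟨i, hi, hi'⟩ := (hM0.prod_mem_iff).1 hj'
      exact hD1 c j i ((hθ _).2 hi')
  have hfA : Algebra.FiniteType ℤ A := (Subalgebra.fg_iff_finiteType _).mp ⟨TA, hTA⟩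
  have hJ : IsJacobsonRing A := by
    have := jac_int
    exact isJacobsonRing_of_finiteType (A := ℤ)
  have hjac : M0.jacobson = M0 := isJacobsonRing_iff_prime_eq.mp hJ M0 hM0
  rw [← hjac, Ideal.jacobson, Submodule.mem_sInf] at hprod
  push Not at hprod
  obtain ⟨MM, ⟨hM0M, hMM⟩, hMa⟩ := hprod
  have hpMM : (p : A) ∈ MM := hM0M hpM0
  refine ⟨MM, hMM, hpMM, fun h1 => hMa (Ideal.mul_mem_right _ MM h1), fun c j h1 h2 => ?_⟩
  have hDM : ∀ i, i ≤ r c j → D c j i ∉ MM := by
    intro i hi h3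
    refine hMa (Ideal.mul_mem_left MM _ ?_)
    refine Ideal.mem_of_dvd MM (Finset.dvd_prod_of_mem
      (fun c => ∏ j ∈ Finset.Ico 1 (m c), ∏ i ∈ Finset.range (r c j + 1), D c j i)
      (Finset.mem_univ c)) ?_
    refine Ideal.mem_of_dvd MM (Finset.dvd_prod_of_mem
      (fun j => ∏ i ∈ Finset.range (r c j + 1), D c j i) (Finset.mem_Ico.2 ⟨h1, h2⟩)) ?_
    exact Ideal.mem_of_dvd MM (Finset.dvd_prod_of_mem (fun i => D c j i)
      (Finset.mem_range.2 (by omega))) h3
  let fM : Field (A ⧸ MM) := Ideal.Quotient.field MM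
  have hcharM : CharP (A ⧸ MM) p := by
    have hz : ((p : ℕ) : A ⧸ MM) = 0 := by
      have := Ideal.Quotient.eq_zero_iff_mem.2 hpMM
      rwa [map_natCast] at this
    obtain ⟨q, hq⟩ := CharP.exists (A ⧸ MM)
    have h1 : q ∣ p := (CharP.cast_eq_zero_iff (A ⧸ MM) q p).1 hz
    rcases (Nat.dvd_prime hpp).1 h1 with h2 | h2
    · subst h2
      exact absurd (CharP.char_ne_one (A ⧸ MM) 1 rfl) (by simp)
    · rwa [← h2]
  -- small `i`
  have hsmall : ∀ i, i ≤ r c j → 2 ^ i * r c j + (2 ^ i - 1) * (T c).card ≤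
      2 ^ i * (it p (hw p (r c j) (bk p (m c) j
        (fun e => (F c e).map (Ideal.Quotient.mk MM)))) i).rank + (2 ^ i - 1) * n c := by
    intro i hi
    have h3 := hD2 c j i (A ⧸ MM) (Ideal.Quotient.mk MM)
      (fun h => hDM i hi (Ideal.Quotient.eq_zero_iff_mem.1 h))
    rw [it_map _ _ (Ideal.Quotient.mk MM), hw_map, bk_map] at h3
    have h4 := hrank c j i
    refine h4.trans (Nat.add_le_add_right (Nat.mul_le_mul_left _ h3) _)
  intro i
  rcases le_or_gt i (r c j) with hi | hi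
  · exact hsmall i hi
  · -- large `i`
    have h3 := hsmall (r c j) le_rfl
    have h4 := rank_it_ge p (hw p (r c j) (bk p (m c) j
        (fun e => (F c e).map (Ideal.Quotient.mk MM)))) i hi.le
    change 2 ^ i * r c j + (2 ^ i - 1) * (T c).card ≤
      2 ^ i * (it p (hw p (r c j) (bk p (m c) j
        (fun e => (F c e).map (Ideal.Quotient.mk MM)))) i).rank + (2 ^ i - 1) * n c
    set ρ := (it p (hw p (r c j) (bk p (m c) j
        (fun e => (F c e).map (Ideal.Quotient.mk MM)))) (r c j)).rank with hρ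
    set ρ' := (it p (hw p (r c j) (bk p (m c) j
        (fun e => (F c e).map (Ideal.Quotient.mk MM)))) i).rank with hρ'
    have hTn := hTn c
    obtain ⟨d, hd⟩ := Nat.exists_eq_add_of_le hTn
    obtain ⟨q, hq⟩ : ∃ q, 2 ^ (r c j) = q + 1 := ⟨2 ^ (r c j) - 1, by
      have : 0 < 2 ^ (r c j) := by positivity
      omega⟩
    obtain ⟨w, hw⟩ : ∃ w, 2 ^ (i - r c j) = w + 1 := ⟨2 ^ (i - r c j) - 1, by
      have : 0 < 2 ^ (i - r c j) := by positivity
      omega⟩
    have h5 : 2 ^ i = (q + 1) * (w + 1) := by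
      rw [← hq, ← hw, ← pow_add]
      congr 1
      omega
    rw [hq] at h3
    rw [h5]
    have e1 : q + 1 - 1 = q := rfl
    have e2 : (q + 1) * (w + 1) - 1 = q * (w + 1) + w := by
      have : (q + 1) * (w + 1) = q * (w + 1) + w + 1 := by ring
      omega
    rw [e1] at h3
    rw [e2]
    have h6 : (w + 1) * ((q + 1) * r c j + q * (T c).card) ≤
        (w + 1) * ((q + 1) * ρ' + q * n c) :=
      Nat.mul_le_mul_left _ (h3.trans (Nat.add_le_add_right (Nat.mul_le_mul_left _ h4) _))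
    have h7 : w * (T c).card ≤ w * n c := Nat.mul_le_mul_left _ hTn
    nlinarith

end Pool.Agent.V8H79.KS
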