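import Pool.Agent.V8H79.KS.PE

/-!
# The transcendence degree of the moduli
-/

set_option autoImplicit false

open Polynomial

namespace Pool.Agent.V8H79.KS

open Pool.Agent.V8H79.BM

/-- a finite family contains a transcendence basis of the algebra which it generates -/
theorem exists_finset {k : Type} [Field k] [CharZero k] {N : ℕ} (x : Fin N → k) :
    ∃ T : Finset (Fin N), (AlgebraicIndependent ℚ fun l : T => x l) ∧
      T.card = Cardinal.toNat (Algebra.trdeg ℚ (Algebra.adjoin ℚ (Set.range x))) := by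
  classical
  set E := Algebra.adjoin ℚ (Set.range x) with hE
  set S : Set E := (fun y : E => (y : k)) ⁻¹' (Set.range x) with hS
  have hadj : Algebra.adjoin ℚ S = ⊤ := Algebra.adjoin_adjoin_coe_preimage
  have halg : Algebra.IsAlgebraic (Algebra.adjoin ℚ S) E := by
    refine ⟨fun y => ?_⟩
    have hy : y ∈ Algebra.adjoin ℚ S := by rw [hadj]; exact Algebra.mem_top
    exact isAlgebraic_algebraMap (R := Algebra.adjoin ℚ S) (A := E) ⟨y, hy⟩
  obtain ⟨t, ht, hb⟩ := exists_isTranscendenceBasis_subset (R := ℚ) S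
  have hind : AlgebraicIndependent ℚ fun y : t => ((y : E) : k) :=
    hb.1.map' (f := E.val) Subtype.val_injective
  have hch : ∀ y : t, ∃ l, x l = ((y : E) : k) := fun y => ht y.2
  choose f hf using hch
  have hfinj : Function.Injective f := by
    intro y z h
    apply Subtype.ext
    apply Subtype.ext
    rw [← hf, ← hf, h]
  have hfin : Finite t := Finite.of_injective f hfinj
  have hft := Fintype.ofFinite t
  refine ⟨Finset.univ.image f, ?_, ?_⟩
  · -- reindex
    have h1 : ∀ l : (Finset.univ.image f : Finset (Fin N)), ∃ y : t, f y = l := by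
      rintro ⟨l, hl⟩
      obtain ⟨y, -, hy⟩ := Finset.mem_image.1 hl
      exact ⟨y, hy⟩
    choose e he using h1
    have heinj : Function.Injective e := by
      intro a b h
      apply Subtype.ext
      rw [← he a, ← he b, h]
    have h2 := hind.comp e heinj
    have h3 : ((fun y : t => ((y : E) : k)) ∘ e) =
        fun l : (Finset.univ.image f : Finset (Fin N)) => x l := by
      funext l
      change ((e l : E) : k) = x l
      rw [← hf, he]
    rwa [h3] at h2
  · rw [Finset.card_image_of_injective _ hfinj, Finset.card_univ, ← hb.cardinalMk_eq_trdeg,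
      Cardinal.mk_fintype, Cardinal.toNat_natCast]

/-- the transcendence degree over `ℚ` of the ratios `(s l - s 0) / (s n - s 0)` -/
noncomputable def moduliDeg {k : Type} [Field k] [CharZero k] {n : ℕ} (s : Fin (n + 1) → k) : ℕ :=
  Cardinal.toNat (Algebra.trdeg ℚ (Algebra.adjoin ℚ
    (Set.range fun l => (s l - s 0) / (s (Fin.last n) - s 0))))

theorem main2 {k ι : Type} [Field k] [CharZero k] [Fintype ι]
    (m n : ι → ℕ) (s : ∀ c, Fin (n c + 1) → k) (hs : ∀ c, Function.Injective (s c))
    (a : ∀ c, Fin (n c + 1) → ℕ) (ha : ∀ c l, a c l < m c)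
    (A : Subalgebra ℤ k) (hA : A.FG) (F : ι → ℕ → A[X])
    (hF : ∀ c e, (F c e).map (algebraMap A k) = ∏ l with a c l = e, (X - C (s c l)))
    (g : A) (hg : g ≠ 0) :
    ∃ N : ℕ, ∀ p : ℕ, N ≤ p → p.Prime → (∀ c, m c ∣ p - 1) → ∃ M : Ideal A, M.IsMaximal ∧
      (p : A) ∈ M ∧ g ∉ M ∧ ∀ c, ∀ j, 1 ≤ j → j < m c → ∀ i,
        2 ^ i * ((∑ l, j * a c l % m c) / m c) + (2 ^ i - 1) * moduliDeg (s c) ≤
          2 ^ i * (it p (hw p ((∑ l, j * a c l % m c) / m c) (bk p (m c) j
            (fun e => (F c e).map (Ideal.Quotient.mk M)))) i).rank + (2 ^ i - 1) * n c := by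
  choose T hT1 hT2 using fun c => exists_finset
    (fun l => (s c l - s c 0) / (s c (Fin.last (n c)) - s c 0))
  obtain ⟨N, hN⟩ := main m n s hs a ha T hT1 A hA F hF g hg
  refine ⟨N, fun p h1 h2 h3 => ?_⟩
  obtain ⟨M, h4, h5, h6, h7⟩ := hN p h1 h2 h3
  refine ⟨M, h4, h5, h6, fun c j h8 h9 i => ?_⟩
  have h10 := h7 c j h8 h9 i
  rw [hT2] at h10
  exact h10

end Pool.Agent.V8H79.KS
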